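import Mathlib

/-!
# The free flood-filling game on a graph

Definitions of the game (moves, plays, number of moves, worst-case number of moves) and
the basic lemmas: one growing region (upper bounds), counting moves by old colour (lower bounds).
-/

namespace Pool.Agent.Lib.FloodIt

variable {V C : Type*}

/-- The graph on `V` that keeps the edges of `G` whose two ends have the same colour. Its
connected components are the monochromatic components of the colouring `ω`. -/
def mono (G : SimpleGraph V) (ω : V → C) : SimpleGraph V where
  Adj a b := G.Adj a b ∧ ω a = ω b
  symm := ⟨fun _ _ h => ⟨h.1.symm, h.2.symm⟩⟩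
  loopless := ⟨fun a h => G.loopless.irrefl a h.1⟩

open Classical in
/-- The colouring after the move `(v, d)`: every vertex of the monochromatic component
containing `v` gets colour `d`. -/
noncomputable def move (G : SimpleGraph V) (ω : V → C) (v : V) (d : C) : V → C :=
  fun w => if (mono G ω).Reachable v w then d else ω w

/-- The colouring after a list of moves, performed from the head of the list on. -/
noncomputable def play (G : SimpleGraph V) (ω : V → C) : List (V × C) → (V → C)
  | [] => ω
  | p :: l => play G (move G ω p.1 p.2) l

/-- `m(G, ω, d)`: the least number of moves after which every vertex has colour `d`. -/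
noncomputable def movesTo (G : SimpleGraph V) (ω : V → C) (d : C) : ℕ :=
  sInf {t | ∃ l : List (V × C), l.length = t ∧ ∀ w, play G ω l w = d}

/-- `m(G, ω)`: the minimum of `m(G, ω, d)` over the colours `d`. -/
noncomputable def minMoves (G : SimpleGraph V) (ω : V → C) : ℕ :=
  sInf (Set.range (movesTo G ω))

/-- `M_c(G)`: the maximum of `m(G, ω)` over the surjective maps `ω` onto the `c` colours. -/
noncomputable def worstMoves (G : SimpleGraph V) (c : ℕ) : ℕ :=
  sSup {t | ∃ ω : V → Fin c, Function.Surjective ω ∧ t = minMoves G ω}

/-- The `k × n` grid: the Cartesian product of a path on `k` and a path on `n` vertices. -/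
def grid (k n : ℕ) : SimpleGraph (Fin k × Fin n) :=
  SimpleGraph.boxProd (SimpleGraph.pathGraph k) (SimpleGraph.pathGraph n)

/-! ## Elementary facts -/

section basic

variable {G : SimpleGraph V} {ω : V → C}

theorem mono_adj {a b : V} : (mono G ω).Adj a b ↔ G.Adj a b ∧ ω a = ω b := Iff.rfl

theorem color_eq_of_reachable {a b : V} (h : (mono G ω).Reachable a b) : ω a = ω b := by
  obtain ⟨p⟩ := h
  induction p with
  | nil => rfl
  | cons h _ ih => exact h.2.trans ih

theorem move_of_reachable {v w : V} {d : C} (h : (mono G ω).Reachable v w) :
    move G ω v d w = d := by
  simp [move, h]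

theorem move_of_not {v w : V} {d : C} (h : ¬ (mono G ω).Reachable v w) :
    move G ω v d w = ω w := by
  simp [move, h]

theorem move_of_color_ne {v w : V} {d : C} (h : ω v ≠ ω w) :
    move G ω v d w = ω w :=
  move_of_not (fun hr => h (color_eq_of_reachable hr))

/-- A vertex of the component of `v` stays in the component of `v` after a move at `v`. -/
theorem reachable_move {v w : V} {d : C} (h : (mono G ω).Reachable v w) :
    (mono G (move G ω v d)).Reachable v w := by
  obtain ⟨p⟩ := h
  have key : ∀ {a b : V} (p : (mono G ω).Walk a b), (mono G ω).Reachable v a →
      (mono G (move G ω v d)).Reachable a b := by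
    intro a b p
    induction p with
    | nil => intro _; exact SimpleGraph.Reachable.refl _
    | cons hadj _ ih =>
      intro hva
      have hvb := hva.trans hadj.reachable
      have h1 : (mono G (move G ω v d)).Adj _ _ :=
        ⟨hadj.1, (move_of_reachable hva).trans (move_of_reachable hvb).symm⟩
      exact h1.reachable.trans (ih hvb)
  exact key p (SimpleGraph.Reachable.refl _)

/-- A vertex of colour `d` adjacent to the component of `v` joins it after the move `(v, d)`. -/
theorem reachable_move_of_adj {v u w : V} {d : C} (hu : (mono G ω).Reachable v u)
    (huw : G.Adj u w) (hw : ω w = d) : (mono G (move G ω v d)).Reachable v w := by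
  by_cases h : (mono G ω).Reachable v w
  · exact reachable_move h
  · have h1 : (mono G (move G ω v d)).Adj u w :=
      ⟨huw, (move_of_reachable hu).trans ((move_of_not h).trans hw).symm⟩
    exact (reachable_move hu).trans h1.reachable

end basic

/-! ## Playing at one fixed vertex -/

section fixed

variable {G : SimpleGraph V}

/-- The colouring after the moves `(v, d)`, `d` running through a list of colours. -/
noncomputable def grow (G : SimpleGraph V) (v : V) (ω : V → C) (ds : List C) : V → C :=
  play G ω (ds.map fun d => (v, d))

@[simp] theorem grow_nil (v : V) (ω : V → C) : grow G v ω [] = ω := rfl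

@[simp] theorem grow_cons (v : V) (ω : V → C) (d : C) (ds : List C) :
    grow G v ω (d :: ds) = grow G v (move G ω v d) ds := rfl

theorem grow_append (v : V) (ω : V → C) (ds es : List C) :
    grow G v ω (ds ++ es) = grow G v (grow G v ω ds) es := by
  induction ds generalizing ω with
  | nil => rfl
  | cons d ds ih => simp [ih]

theorem reachable_grow {v w : V} (ds : List C) :
    ∀ {ω : V → C}, (mono G ω).Reachable v w → (mono G (grow G v ω ds)).Reachable v w := by
  induction ds with
  | nil => intro ω h; exact h
  | cons d ds ih => intro ω h; exact ih (reachable_move h)

theorem grow_of_not {v w : V} (ds : List C) :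
    ∀ {ω : V → C}, ¬ (mono G (grow G v ω ds)).Reachable v w → grow G v ω ds w = ω w := by
  induction ds with
  | nil => intro ω _; rfl
  | cons d ds ih =>
    intro ω h
    have h1 := ih h
    rw [grow_cons, h1]
    by_cases h2 : (mono G ω).Reachable v w
    · exact absurd (reachable_grow ds (reachable_move h2)) h
    · exact move_of_not h2

/-- A vertex adjacent to the region is absorbed as soon as the region takes its colour. -/
theorem reachable_grow_of_adj {v u w : V} (ds : List C) :
    ∀ {ω : V → C}, (mono G ω).Reachable v u → G.Adj u w → ω w ∈ ds →
      (mono G (grow G v ω ds)).Reachable v w := by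
  induction ds with
  | nil => intro ω _ _ h; simp at h
  | cons d ds ih =>
    intro ω hu huw hw
    rw [grow_cons]
    by_cases h2 : (mono G ω).Reachable v w
    · exact reachable_grow ds (reachable_move h2)
    · rcases List.mem_cons.1 hw with h3 | h3
      · exact reachable_grow ds (reachable_move_of_adj hu huw h3)
      · refine ih (reachable_move hu) huw ?_
        rwa [move_of_not h2]

theorem reachable_grow_of_adj' {v u w : V} (ds : List C) {ω : V → C}
    (hu : (mono G ω).Reachable v u) (huw : G.Adj u w) (hw : ω w = ω v ∨ ω w ∈ ds) :
    (mono G (grow G v ω ds)).Reachable v w := by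
  rcases hw with hw | hw
  · have h1 : (mono G ω).Adj u w := ⟨huw, ((color_eq_of_reachable hu).symm.trans hw.symm)⟩
    exact reachable_grow ds (hu.trans h1.reachable)
  · exact reachable_grow_of_adj ds hu huw hw

/-- If the region is everything after the moves `ds`, the game takes at most `ds.length` moves. -/
theorem minMoves_le_of_grow {v : V} {ω : V → C} (ds : List C)
    (h : ∀ w, (mono G (grow G v ω ds)).Reachable v w) : minMoves G ω ≤ ds.length := by
  have h1 : movesTo G ω (grow G v ω ds v) ≤ ds.length := by
    refine Nat.sInf_le ⟨ds.map fun d => (v, d), by simp, fun w => ?_⟩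
    exact (color_eq_of_reachable (h w)).symm
  exact (Nat.sInf_le (Set.mem_range_self (grow G v ω ds v))).trans h1

/-- If the region can be made everything, every colour can be reached. -/
theorem exists_play_of_grow {v : V} {ω : V → C} (ds : List C)
    (h : ∀ w, (mono G (grow G v ω ds)).Reachable v w) (d : C) :
    ∃ l : List (V × C), ∀ w, play G ω l w = d := by
  refine ⟨(ds ++ [d]).map fun d => (v, d), fun w => ?_⟩
  change grow G v ω (ds ++ [d]) w = d
  rw [grow_append, grow_cons, grow_nil]
  exact move_of_reachable (h w)

/-- A lower bound for `m(G, ω)`. -/
theorem le_minMoves [Nonempty C] {ω : V → C} {K : ℕ}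
    (h1 : ∀ (d : C) (l : List (V × C)), (∀ w, play G ω l w = d) → K ≤ l.length)
    (h2 : ∀ d : C, ∃ l : List (V × C), ∀ w, play G ω l w = d) : K ≤ minMoves G ω := by
  have h3 : (Set.range (movesTo G ω)).Nonempty := Set.range_nonempty _
  obtain ⟨d, hd⟩ := Nat.sInf_mem h3
  rw [minMoves, ← hd]
  obtain ⟨l, hl⟩ := h2 d
  have h4 : {t | ∃ l : List (V × C), l.length = t ∧ ∀ w, play G ω l w = d}.Nonempty :=
    ⟨l.length, l, rfl, hl⟩
  obtain ⟨l', hl', hl''⟩ := Nat.sInf_mem h4
  rw [movesTo, ← hl']
  exact h1 d l' hl''

end fixed

/-! ## Counting moves by the old colour -/

section count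

variable {G : SimpleGraph V} [DecidableEq C]

/-- The number of moves of a play whose component had colour `x` before the move. -/
noncomputable def oldCount (G : SimpleGraph V) (x : C) : (V → C) → List (V × C) → ℕ
  | _, [] => 0
  | ω, p :: l => (if ω p.1 = x then 1 else 0) + oldCount G x (move G ω p.1 p.2) l

theorem sum_oldCount [Fintype C] (l : List (V × C)) :
    ∀ ω : V → C, ∑ x, oldCount G x ω l = l.length := by
  induction l with
  | nil => intro ω; simp [oldCount]
  | cons p l ih =>
    intro ω
    simp only [oldCount, Finset.sum_add_distrib, ih, List.length_cons]
    simp [add_comm]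

/-- A vertex that changes its colour `x` accounts for a move with old colour `x`. -/
theorem one_le_oldCount {x : C} {w : V} (l : List (V × C)) :
    ∀ ω : V → C, ω w = x → play G ω l w ≠ x → 1 ≤ oldCount G x ω l := by
  induction l with
  | nil => intro ω h1 h2; exact absurd h1 h2
  | cons p l ih =>
    intro ω h1 h2
    by_cases h3 : ω p.1 = x
    · simp [oldCount, h3]
    · have h4 : move G ω p.1 p.2 w = x := by
        rw [move_of_color_ne (by rw [h1]; exact h3), h1]
      have h5 := ih _ h4 h2
      simp only [oldCount]
      omega

/-- Separation property of a pair `a, b` by a pair `s, t`: in every colouring in which `a` and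
`b` lie in one monochromatic component, `s` or `t` has the colour of `a`. -/
def Separated (G : SimpleGraph V) (C : Type*) (a b s t : V) : Prop :=
  ∀ ω : V → C, (mono G ω).Reachable a b → ω s = ω a ∨ ω t = ω a

/-- Two colours `x ≠ y` on a crossing pair `a, b` and `s, t`: three moves have old colour `x`
or `y`, if the final colour is neither. -/
theorem three_le_oldCount {x y : C} (hxy : x ≠ y) {a b s t : V}
    (hs1 : Separated G C a b s t) (hs2 : Separated G C s t a b) (f : C) (l : List (V × C)) :
    ∀ ω : V → C, ω a = x → ω b = x → ω s = y → ω t = y → (∀ w, play G ω l w = f) →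
      3 ≤ oldCount G x ω l + oldCount G y ω l + (if f = x ∨ f = y then 1 else 0) := by
  induction l with
  | nil =>
    intro ω ha hb hs ht hf
    have h1 := hf a
    have h2 := hf s
    simp only [play] at h1 h2
    exact absurd (ha.symm.trans (h1.trans (h2.symm.trans hs))) hxy
  | cons p l ih =>
    intro ω ha hb hs ht hf
    set ω' := move G ω p.1 p.2 with hω'
    have hfin : ∀ w, play G ω' l w = f := hf
    -- the contribution of the rest of the play, by vertices keeping their colours
    have key : ∀ (u : V) (z : C), ω' u = z → f ≠ z → 1 ≤ oldCount G z ω' l := by
      intro u z hu hz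
      exact one_le_oldCount l ω' hu (by rw [hfin u]; exact hz)
    by_cases hx : ω p.1 = x
    · have hs' : ω' s = y := by rw [hω', move_of_color_ne (by rw [hx, hs]; exact hxy), hs]
      have ht' : ω' t = y := by rw [hω', move_of_color_ne (by rw [hx, ht]; exact hxy), ht]
      have hcx : oldCount G x ω (p :: l) = 1 + oldCount G x ω' l := by simp [oldCount, hx, hω']
      have hcy : oldCount G y ω (p :: l) = oldCount G y ω' l := by
        simp [oldCount, hx, hω', hxy]
      by_cases hra : (mono G ω).Reachable p.1 a
      · -- then `b` is not in the component
        have hrb : ¬ (mono G ω).Reachable p.1 b := by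
          intro hrb
          rcases hs1 ω (hra.symm.trans hrb) with h | h
          · rw [hs, ha] at h; exact hxy h.symm
          · rw [ht, ha] at h; exact hxy h.symm
        have hb' : ω' b = x := by rw [hω', move_of_not hrb, hb]
        rw [hcx, hcy]
        by_cases hfx : f = x
        · have h2 := key s y hs' (by rw [hfx]; exact hxy)
          simp only [hfx, true_or, if_true]
          omega
        · have h1 := key b x hb' hfx
          by_cases hfy : f = y
          · simp only [hfy, or_true, if_true]
            omega
          · have h2 := key s y hs' hfy
            omega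
      · have ha' : ω' a = x := by rw [hω', move_of_not hra, ha]
        by_cases hrb : (mono G ω).Reachable p.1 b
        · rw [hcx, hcy]
          by_cases hfx : f = x
          · have h2 := key s y hs' (by rw [hfx]; exact hxy)
            simp only [hfx, true_or, if_true]
            omega
          · have h1 := key a x ha' hfx
            by_cases hfy : f = y
            · simp only [hfy, or_true, if_true]
              omega
            · have h2 := key s y hs' hfy
              omega
        · have hb' : ω' b = x := by rw [hω', move_of_not hrb, hb]
          have h3 := ih ω' ha' hb' hs' ht' hfin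
          rw [hcx, hcy]
          omega
    · have ha' : ω' a = x := by rw [hω', move_of_color_ne (by rw [ha]; exact hx), ha]
      have hb' : ω' b = x := by rw [hω', move_of_color_ne (by rw [hb]; exact hx), hb]
      have hcx : oldCount G x ω (p :: l) = oldCount G x ω' l := by simp [oldCount, hx, hω']
      by_cases hy : ω p.1 = y
      · have hcy : oldCount G y ω (p :: l) = 1 + oldCount G y ω' l := by
          simp [oldCount, hy, hω']
        by_cases hrs : (mono G ω).Reachable p.1 s
        · have hrt : ¬ (mono G ω).Reachable p.1 t := by
            intro hrt
            rcases hs2 ω (hrs.symm.trans hrt) with h | h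
            · rw [hs, ha] at h; exact hxy h
            · rw [hs, hb] at h; exact hxy h
          have ht' : ω' t = y := by rw [hω', move_of_not hrt, ht]
          rw [hcx, hcy]
          by_cases hfy : f = y
          · have h2 := key a x ha' (by rw [hfy]; exact hxy.symm)
            simp only [hfy, or_true, if_true]
            omega
          · have h1 := key t y ht' hfy
            by_cases hfx : f = x
            · simp only [hfx, true_or, if_true]
              omega
            · have h2 := key a x ha' hfx
              omega
        · have hs' : ω' s = y := by rw [hω', move_of_not hrs, hs]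
          by_cases hrt : (mono G ω).Reachable p.1 t
          · rw [hcx, hcy]
            by_cases hfy : f = y
            · have h2 := key a x ha' (by rw [hfy]; exact hxy.symm)
              simp only [hfy, or_true, if_true]
              omega
            · have h1 := key s y hs' hfy
              by_cases hfx : f = x
              · simp only [hfx, true_or, if_true]
                omega
              · have h2 := key a x ha' hfx
                omega
          · have ht' : ω' t = y := by rw [hω', move_of_not hrt, ht]
            have h3 := ih ω' ha' hb' hs' ht' hfin
            rw [hcx, hcy]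
            omega
      · have hs' : ω' s = y := by rw [hω', move_of_color_ne (by rw [hs]; exact hy), hs]
        have ht' : ω' t = y := by rw [hω', move_of_color_ne (by rw [ht]; exact hy), ht]
        have hcy : oldCount G y ω (p :: l) = oldCount G y ω' l := by simp [oldCount, hy, hω']
        have h3 := ih ω' ha' hb' hs' ht' hfin
        rw [hcx, hcy]
        exact h3

end count

end Pool.Agent.Lib.FloodIt
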