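import Pool.Agent.Lib.FloodIt.TwoRows

/-!
# Flood-It on grids: the comb strategy

A region that grows from a corner absorbs the first column and every `(2h + 1)`-th row, cell by
cell, and then everything by `h` rounds of all colours.
-/

namespace Pool.Agent.Lib.FloodIt

section cover

variable {V : Type*} {G : SimpleGraph V} {c : ℕ}

/-- Some `a` moves at `v` bring all vertices in `S` into the component of `v`. -/
def Cover (G : SimpleGraph V) (v : V) (ω : V → Fin c) (a : ℕ) (S : V → Prop) : Prop :=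
  ∃ ds : List (Fin c), ds.length ≤ a ∧ ∀ w, S w → (mono G (grow G v ω ds)).Reachable v w

theorem Cover.mono {v : V} {ω : V → Fin c} {a b : ℕ} {S T : V → Prop}
    (h : Cover G v ω a S) (hab : a ≤ b) (hST : ∀ w, T w → S w) : Cover G v ω b T := by
  obtain ⟨ds, h1, h2⟩ := h
  exact ⟨ds, h1.trans hab, fun w hw => h2 w (hST w hw)⟩

theorem Cover.start {v : V} {ω : V → Fin c} : Cover G v ω 0 (fun w => w = v) :=
  ⟨[], le_rfl, fun w hw => by rw [hw]⟩

theorem Cover.step {v : V} {ω : V → Fin c} {a : ℕ} {S : V → Prop} (h : Cover G v ω a S)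
    {u w : V} (hu : S u) (huw : G.Adj u w) :
    Cover G v ω (a + 1) (fun z => S z ∨ z = w) := by
  obtain ⟨ds, h1, h2⟩ := h
  refine ⟨ds ++ [grow G v ω ds w], ?_, ?_⟩
  · simp only [List.length_append, List.length_singleton]
    omega
  · rintro z (hz | rfl)
    · rw [grow_append]
      exact reachable_grow _ (h2 z hz)
    · rw [grow_append]
      exact reachable_grow_of_adj _ (h2 u hu) huw (by simp)

theorem Cover.round {v : V} {ω : V → Fin c} {a : ℕ} {S : V → Prop} (h : Cover G v ω a S) :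
    Cover G v ω (a + c) (fun z => S z ∨ ∃ u, S u ∧ G.Adj u z) := by
  obtain ⟨ds, h1, h2⟩ := h
  refine ⟨ds ++ List.finRange c, ?_, ?_⟩
  · simp only [List.length_append, List.length_finRange]
    omega
  · rintro z (hz | ⟨u, hu, huz⟩)
    · rw [grow_append]
      exact reachable_grow _ (h2 z hz)
    · rw [grow_append]
      exact reachable_grow_of_adj _ (h2 u hu) huz (by simp)

theorem Cover.minMoves_le {v : V} {ω : V → Fin c} {a : ℕ} {S : V → Prop}
    (h : Cover G v ω a S) (hS : ∀ w, S w) : minMoves G ω ≤ a := by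
  obtain ⟨ds, h1, h2⟩ := h
  exact (minMoves_le_of_grow ds fun w => h2 w (hS w)).trans h1

end cover

/-- The tooth with index `i`. -/
def tooth {k : ℕ} (hk : 0 < k) (h i : ℕ) : Fin k :=
  ⟨min (i * (2 * h + 1) + h) (k - 1), by omega⟩

section comb

variable {k n c : ℕ} (hk : 0 < k) (hn : 0 < n) (ω : Fin k × Fin n → Fin c)

/-- The first column. -/
theorem cover_column (x : ℕ) (hx : x < k) :
    Cover (grid k n) (⟨0, hk⟩, ⟨0, hn⟩) ω x (fun z => z.2.val = 0 ∧ z.1.val ≤ x) := by
  induction x with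
  | zero =>
    refine Cover.start.mono le_rfl ?_
    rintro ⟨a, b⟩ ⟨h1, h2⟩
    simp only at h1 h2
    exact Prod.ext (Fin.ext (by simpa using h2)) (Fin.ext (by simpa using h1))
  | succ x ih =>
    have h1 := ih (by omega)
    refine (h1.step (u := (⟨x, by omega⟩, ⟨0, hn⟩)) (w := (⟨x + 1, hx⟩, ⟨0, hn⟩))
      ⟨rfl, le_rfl⟩ ?_).mono le_rfl ?_
    · rw [grid_adj]
      left
      exact ⟨Or.inl rfl, rfl⟩
    · rintro ⟨a, b⟩ ⟨h2, h3⟩
      simp only at h2 h3
      rcases Nat.lt_or_ge a.val (x + 1) with h4 | h4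
      · left
        exact ⟨h2, by simp only; omega⟩
      · right
        exact Prod.ext (Fin.ext (by simp only; omega)) (Fin.ext h2)

/-- One more row. -/
theorem cover_row {a : ℕ} {S : Fin k × Fin n → Prop}
    (h : Cover (grid k n) (⟨0, hk⟩, ⟨0, hn⟩) ω a S) (x : Fin k) (hx : S (x, ⟨0, hn⟩))
    (y : ℕ) (hy : y < n) :
    Cover (grid k n) (⟨0, hk⟩, ⟨0, hn⟩) ω (a + y)
      (fun z => S z ∨ (z.1 = x ∧ z.2.val ≤ y)) := by
  induction y with
  | zero =>
    refine h.mono (by omega) ?_
    rintro ⟨p, q⟩ (h1 | ⟨h1, h2⟩)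
    · exact h1
    · simp only at h1 h2
      have h3 : q = ⟨0, hn⟩ := Fin.ext (by simpa using h2)
      rw [h1, h3]
      exact hx
  | succ y ih =>
    have h1 := ih (by omega)
    refine (h1.step (u := (x, ⟨y, by omega⟩)) (w := (x, ⟨y + 1, hy⟩))
      (Or.inr ⟨rfl, le_rfl⟩) ?_).mono (by omega) ?_
    · rw [grid_adj]
      right
      exact ⟨Or.inl rfl, rfl⟩
    · rintro ⟨p, q⟩ (h2 | ⟨h2, h3⟩)
      · exact Or.inl (Or.inl h2)
      · simp only at h2 h3
        rcases Nat.lt_or_ge q.val (y + 1) with h4 | h4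
        · left; right
          exact ⟨h2, by simp only; omega⟩
        · right
          exact Prod.ext h2 (Fin.ext (by simp only; omega))

/-- The first column and `j` teeth. -/
theorem cover_teeth (h j : ℕ) :
    Cover (grid k n) (⟨0, hk⟩, ⟨0, hn⟩) ω ((k - 1) + j * (n - 1))
      (fun z => z.2.val = 0 ∨ ∃ i < j, z.1 = tooth hk h i) := by
  induction j with
  | zero =>
    refine (cover_column hk hn ω (k - 1) (by omega)).mono (by omega) ?_
    rintro ⟨p, q⟩ (h1 | ⟨i, hi, _⟩)
    · refine ⟨h1, ?_⟩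
      have := p.isLt
      simp only
      omega
    · omega
  | succ j ih =>
    refine (cover_row hk hn ω ih (tooth hk h j) (Or.inl rfl) (n - 1) (by omega)).mono ?_ ?_
    · rw [Nat.add_mul, one_mul]
      omega
    · rintro ⟨p, q⟩ (h1 | ⟨i, hi, h2⟩)
      · exact Or.inl (Or.inl h1)
      · simp only at h2
        rcases Nat.lt_or_ge i j with h3 | h3
        · exact Or.inl (Or.inr ⟨i, h3, h2⟩)
        · right
          have h4 : i = j := by omega
          subst h4
          refine ⟨h2, ?_⟩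
          have := q.isLt
          simp only
          omega

/-- After `j` rounds of all colours. -/
theorem cover_rounds (h τ j : ℕ) :
    Cover (grid k n) (⟨0, hk⟩, ⟨0, hn⟩) ω ((k - 1) + τ * (n - 1) + c * j)
      (fun z => ∃ i < τ, z.1.val ≤ (tooth hk h i).val + j ∧ (tooth hk h i).val ≤ z.1.val + j) := by
  induction j with
  | zero =>
    refine (cover_teeth hk hn ω h τ).mono (by omega) ?_
    rintro ⟨p, q⟩ ⟨i, hi, h1, h2⟩
    right
    refine ⟨i, hi, Fin.ext ?_⟩
    simp only at h1 h2 ⊢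
    omega
  | succ j ih =>
    refine ih.round.mono (by rw [Nat.mul_add, mul_one]; omega) ?_
    rintro ⟨p, q⟩ ⟨i, hi, h1, h2⟩
    simp only at h1 h2
    have hp := p.isLt
    have ht := (tooth hk h i).isLt
    rcases Nat.lt_or_ge ((tooth hk h i).val + j) p.val with h3 | h3
    · right
      refine ⟨(⟨p.val - 1, by omega⟩, q), ⟨i, hi, ?_, ?_⟩, ?_⟩
      · simp only; omega
      · simp only; omega
      · rw [grid_adj]
        left
        refine ⟨Or.inl ?_, rfl⟩
        simp only; omega
    · rcases Nat.lt_or_ge (p.val + j) (tooth hk h i).val with h4 | h4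
      · right
        refine ⟨(⟨p.val + 1, by omega⟩, q), ⟨i, hi, ?_, ?_⟩, ?_⟩
        · simp only; omega
        · simp only; omega
        · rw [grid_adj]
          left
          exact ⟨Or.inr rfl, rfl⟩
      · left
        exact ⟨i, hi, h3, h4⟩

include hk hn in
theorem minMoves_le_comb (h : ℕ) :
    minMoves (grid k n) ω ≤ (k - 1) + ((k + 2 * h) / (2 * h + 1)) * (n - 1) + c * h := by
  refine (cover_rounds hk hn ω h ((k + 2 * h) / (2 * h + 1)) h).minMoves_le ?_
  intro z
  have hz := z.1.isLt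
  have h1 := Nat.div_add_mod z.1.val (2 * h + 1)
  have h2 : z.1.val % (2 * h + 1) < 2 * h + 1 := Nat.mod_lt _ (by omega)
  set i := z.1.val / (2 * h + 1) with hi
  have h3 : (2 * h + 1) * i = i * (2 * h + 1) := Nat.mul_comm _ _
  refine ⟨i, ?_, ?_, ?_⟩
  · rw [Nat.lt_div_iff_mul_lt (by omega)]
    rw [h3] at h1
    omega
  · show z.1.val ≤ min (i * (2 * h + 1) + h) (k - 1) + h
    rw [h3] at h1
    omega
  · show min (i * (2 * h + 1) + h) (k - 1) ≤ z.1.val + h
    rw [h3] at h1
    omega

end comb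

/-- The upper bound by combs. -/
theorem worstMoves_le_comb {k n c : ℕ} (hk : 0 < k) (hn : 0 < n) (h : ℕ) :
    worstMoves (grid k n) c ≤ (k - 1) + ((k + 2 * h) / (2 * h + 1)) * (n - 1) + c * h := by
  refine csSup_le' ?_
  rintro t ⟨ω, _, rfl⟩
  exact minMoves_le_comb hk hn ω h

end Pool.Agent.Lib.FloodIt
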