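import Pool.Agent.Lib.FloodIt.Levels

/-!
# Flood-It on grids: a lower bound of order `√(ckn)`

Disjoint diamonds of radius `r`, each with a colour of its own in every other ring. The moves
with old or new colour `i` number at least `r/2 + 1` for every private colour `i` other than the
final colour, and a move has only two colours.
-/

namespace Pool.Agent.Lib.FloodIt

open Finset

theorem card_filter_le_of_imp {I : Finset ℕ} {P Q : ℕ → Prop} [DecidablePred P]
    [DecidablePred Q] (h : ∀ ℓ, P ℓ → Q ℓ) : (I.filter P).card ≤ (I.filter Q).card :=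
  card_le_card fun ℓ hℓ => mem_filter.2 ⟨(mem_filter.1 hℓ).1, h ℓ (mem_filter.1 hℓ).2⟩

section touch

variable {V : Type*} {G : SimpleGraph V} {c : ℕ}

/-- The number of moves of a play whose old or new colour is `i`. -/
noncomputable def touch (G : SimpleGraph V) (i : Fin c) : (V → Fin c) → List (V × Fin c) → ℕ
  | _, [] => 0
  | ω, p :: l => (if ω p.1 = i ∨ p.2 = i then 1 else 0) + touch G i (move G ω p.1 p.2) l

theorem sum_touch_le (l : List (V × Fin c)) :
    ∀ ω : V → Fin c, ∑ i, touch G i ω l ≤ 2 * l.length := by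
  induction l with
  | nil => intro ω; simp [touch]
  | cons p l ih =>
    intro ω
    simp only [touch, sum_add_distrib, List.length_cons]
    have h1 : ∑ i : Fin c, (if ω p.1 = i ∨ p.2 = i then 1 else 0) ≤ 2 := by
      calc ∑ i : Fin c, (if ω p.1 = i ∨ p.2 = i then 1 else 0)
          ≤ ∑ i : Fin c, ((if ω p.1 = i then 1 else 0) + (if p.2 = i then 1 else 0)) := by
            refine sum_le_sum fun i _ => ?_
            by_cases h1 : ω p.1 = i <;> by_cases h2 : p.2 = i <;> simp [h1, h2]
        _ = 2 := by simp [sum_add_distrib]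
    have := ih (move G ω p.1 p.2)
    omega

/-- Level `ℓ` wants colour `i` if `ℓ` has the parity of `p`, and does not want it otherwise. -/
def ParityGood (i : Fin c) (p : ℕ) (ℓ : ℕ) (e : Fin c) : Prop :=
  ℓ % 2 = (if e = i then p else p + 1) % 2

theorem card_parityGood_le (i : Fin c) (p : ℕ) (I : Finset ℕ)
    (hI : ∀ a ∈ I, ∀ b ∈ I, ∀ x, a ≤ x → x ≤ b → x ∈ I) (d e : Fin c)
    [DecidablePred fun ℓ => ParityGood i p ℓ e] [DecidablePred fun ℓ => ParityGood i p ℓ d] :
    (I.filter fun ℓ => ParityGood i p ℓ e).card ≤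
      (I.filter fun ℓ => ParityGood i p ℓ d).card + (if e = i ∨ d = i then 1 else 0) := by
  by_cases h : e = i ∨ d = i
  · rw [if_pos h]
    have h1 := card_residue_le (c := 2) (by norm_num) I hI
      (if d = i then p else p + 1) (if e = i then p else p + 1)
    exact (@card_filter_le_of_imp _ _ _ (_) (_) fun ℓ h => h).trans
      (h1.trans (Nat.add_le_add_right (@card_filter_le_of_imp _ _ _ (_) (_) fun ℓ h => h) 1))
  · rw [if_neg h, add_zero]
    push Not at h
    refine card_filter_le_of_imp fun ℓ hℓ => ?_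
    unfold ParityGood at hℓ ⊢
    rw [if_neg h.1] at hℓ
    rw [if_neg h.2]
    exact hℓ

variable [Fintype V] [DecidableEq V]

theorem card_pairs_play_le_touch (i : Fin c) (p : ℕ) {f : V → ℕ}
    (hf : ∀ a b, G.Adj a b → f b ≤ f a + 1) (l : List (V × Fin c)) : ∀ ω : V → Fin c,
    (pairs G f (ParityGood i p) (play G ω l) (play G ω l)).card ≤
      (pairs G f (ParityGood i p) ω ω).card + touch G i ω l := by
  induction l with
  | nil => intro ω; simp [play, touch]
  | cons q l ih =>
    intro ω
    have h1 := ih (move G ω q.1 q.2)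
    have h2 := card_pairs_move_le_add (good := ParityGood i p) hf ω q.1 q.2
      (B := if ω q.1 = i ∨ q.2 = i then 1 else 0)
      (fun I hI _ _ => card_parityGood_le i p I hI q.2 (ω q.1))
    simp only [play, touch]
    omega

/-- A lower bound for the number of moves with old or new colour `i`. -/
theorem le_touch {i d : Fin c} (hid : d ≠ i) {r : ℕ} {f : V → ℕ}
    (hf : ∀ a b, G.Adj a b → f b ≤ f a + 1) (hL : ∀ ℓ ≤ r, ∃ x, f x = ℓ) {ω : V → Fin c}
    (hω : ∀ x, ParityGood i r (f x) (ω x)) (l : List (V × Fin c))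
    (hl : ∀ w, play G ω l w = d) : r / 2 + 1 ≤ touch G i ω l := by
  classical
  have h1 := card_pairs_play_le_touch (G := G) i r hf l ω
  have h2 : pairs G f (ParityGood i r) ω ω = ∅ := by
    unfold pairs
    rw [image_eq_empty, filter_eq_empty_iff]
    intro x _ h
    exact h (hω x)
  rw [h2, card_empty, zero_add] at h1
  have h3 : ((range (r / 2 + 1)).image fun j => r - 2 * j) ⊆
      (pairs G f (ParityGood i r) (play G ω l) (play G ω l)).image Prod.snd := by
    intro ℓ hℓ
    rw [mem_image] at hℓ
    obtain ⟨j, hj, rfl⟩ := hℓ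
    rw [mem_range] at hj
    obtain ⟨x, hx⟩ := hL (r - 2 * j) (Nat.sub_le _ _)
    rw [mem_image]
    refine ⟨((mono G (play G ω l)).connectedComponentMk x, f x), ?_, hx⟩
    unfold pairs
    rw [mem_image]
    refine ⟨x, ?_, rfl⟩
    rw [mem_filter]
    refine ⟨mem_univ _, ?_⟩
    rw [hl x, hx]
    unfold ParityGood
    rw [if_neg hid]
    omega
  have h4 := (card_le_card h3).trans card_image_le
  have h5 : ((range (r / 2 + 1)).image fun j => r - 2 * j).card = r / 2 + 1 := by
    rw [card_image_of_injOn, card_range]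
    intro a ha b hb hab
    simp only [coe_range, Set.mem_Iio] at ha hb
    simp only at hab
    omega
  omega

end touch

section diamonds

variable {k n m r : ℕ}

/-- The centre of the box with indices `q`. -/
def ctr (r : ℕ) (q : ℕ × ℕ) : ℕ × ℕ := (q.1 * (2 * r + 1) + r, q.2 * (2 * r + 1) + r)

/-- The distance of a cell from the centre of the box `q`. -/
def dst (r : ℕ) (q : ℕ × ℕ) (x : Fin k × Fin n) : ℕ :=
  ((x.1.val - (ctr r q).1) + ((ctr r q).1 - x.1.val)) +
    ((x.2.val - (ctr r q).2) + ((ctr r q).2 - x.2.val))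

theorem box_unique {a b x : ℕ} (h : (x - (a * (2 * r + 1) + r)) + (a * (2 * r + 1) + r - x) ≤ r)
    (h' : (x - (b * (2 * r + 1) + r)) + (b * (2 * r + 1) + r - x) ≤ r) : a = b := by
  have h1 : x / (2 * r + 1) = a := by
    apply Nat.div_eq_of_lt_le
    · omega
    · have : (a + 1) * (2 * r + 1) = a * (2 * r + 1) + (2 * r + 1) := by ring
      rw [this]
      omega
  have h2 : x / (2 * r + 1) = b := by
    apply Nat.div_eq_of_lt_le
    · omega
    · have : (b + 1) * (2 * r + 1) = b * (2 * r + 1) + (2 * r + 1) := by ring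
      rw [this]
      omega
  omega

theorem dst_unique {q q' : ℕ × ℕ} {x : Fin k × Fin n} (h : dst r q x ≤ r)
    (h' : dst r q' x ≤ r) : q = q' := by
  unfold dst ctr at h h'
  simp only at h h'
  exact Prod.ext (box_unique (r := r) (x := x.1.val) (by omega) (by omega))
    (box_unique (r := r) (x := x.2.val) (by omega) (by omega))

variable (e : Fin m ↪ Fin (k / (2 * r + 1)) × Fin (n / (2 * r + 1)))

/-- The indices of the box of colour `i`. -/
def bx (i : Fin m) : ℕ × ℕ := ((e i).1.val, (e i).2.val)

theorem bx_injective : Function.Injective (bx e) := by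
  intro i j h
  apply e.injective
  unfold bx at h
  rw [Prod.mk.injEq] at h
  exact Prod.ext (Fin.ext h.1) (Fin.ext h.2)

open Classical in
/-- The colouring by diamonds. -/
noncomputable def diam (x : Fin k × Fin n) : Fin (m + 1) :=
  if h : ∃ i : Fin m, dst r (bx e i) x ≤ r ∧ dst r (bx e i) x % 2 = r % 2 then
    (Classical.choose h).succ else 0

theorem diam_eq_succ_iff (x : Fin k × Fin n) (i : Fin m) :
    diam e x = i.succ ↔ dst r (bx e i) x ≤ r ∧ dst r (bx e i) x % 2 = r % 2 := by
  unfold diam
  constructor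
  · intro h
    split_ifs at h with h1
    · have h2 := Classical.choose_spec h1
      rw [Fin.succ_inj] at h
      rwa [h] at h2
    · exact absurd h.symm (Fin.succ_ne_zero i)
  · intro h
    have h1 : ∃ i : Fin m, dst r (bx e i) x ≤ r ∧ dst r (bx e i) x % 2 = r % 2 := ⟨i, h⟩
    rw [dif_pos h1]
    have h2 := Classical.choose_spec h1
    rw [Fin.succ_inj]
    exact bx_injective e (dst_unique h2.1 h.1)

theorem diam_eq_zero {x : Fin k × Fin n}
    (h : ∀ i : Fin m, ¬ (dst r (bx e i) x ≤ r ∧ dst r (bx e i) x % 2 = r % 2)) :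
    diam e x = 0 := by
  unfold diam
  rw [dif_neg]
  rintro ⟨i, hi⟩
  exact h i hi

/-- The cell at distance `ℓ ≤ r` to the left of the centre of the box of colour `i`. -/
theorem exists_cell (i : Fin m) {ℓ : ℕ} (hℓ : ℓ ≤ r) :
    ∃ x : Fin k × Fin n, dst r (bx e i) x = ℓ := by
  have h1 : (bx e i).1 * (2 * r + 1) + (2 * r + 1) ≤ k := by
    have h2 : (bx e i).1 + 1 ≤ k / (2 * r + 1) := (e i).1.isLt
    calc (bx e i).1 * (2 * r + 1) + (2 * r + 1) = ((bx e i).1 + 1) * (2 * r + 1) := by ring
      _ ≤ k / (2 * r + 1) * (2 * r + 1) := Nat.mul_le_mul_right _ h2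
      _ ≤ k := Nat.div_mul_le_self _ _
  have h3 : (bx e i).2 * (2 * r + 1) + (2 * r + 1) ≤ n := by
    have h2 : (bx e i).2 + 1 ≤ n / (2 * r + 1) := (e i).2.isLt
    calc (bx e i).2 * (2 * r + 1) + (2 * r + 1) = ((bx e i).2 + 1) * (2 * r + 1) := by ring
      _ ≤ n / (2 * r + 1) * (2 * r + 1) := Nat.mul_le_mul_right _ h2
      _ ≤ n := Nat.div_mul_le_self _ _
  refine ⟨(⟨(bx e i).1 * (2 * r + 1) + r, by omega⟩,
    ⟨(bx e i).2 * (2 * r + 1) + r - ℓ, by omega⟩), ?_⟩
  unfold dst ctr
  simp only
  omega

theorem diam_surjective (hm : 1 ≤ m) (hkn : m < k * n) : Function.Surjective (diam e) := by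
  intro y
  rcases Fin.eq_zero_or_eq_succ y with rfl | ⟨i, rfl⟩
  · rcases Nat.eq_zero_or_pos r with hr | hr
    · -- a cell that is not a centre
      subst hr
      by_contra hcon
      push Not at hcon
      have h1 : ∀ x : Fin k × Fin n, ∃ i : Fin m, dst 0 (bx e i) x = 0 := by
        intro x
        by_contra h
        push Not at h
        refine hcon x (diam_eq_zero e fun i hi => h i ?_)
        omega
      choose g hg using h1
      have hinj : Function.Injective g := by
        intro x y hxy
        have hx := hg x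
        have hy := hg y
        rw [← hxy] at hy
        unfold dst at hx hy
        refine Prod.ext (Fin.ext ?_) (Fin.ext ?_) <;> omega
      have h2 := Fintype.card_le_of_injective g hinj
      simp at h2
      omega
    · obtain ⟨x, hx⟩ := exists_cell (k := k) (n := n) e ⟨0, hm⟩ (ℓ := r - 1) (by omega)
      refine ⟨x, diam_eq_zero e ?_⟩
      intro i hi
      have h1 : bx e i = bx e ⟨0, hm⟩ := dst_unique (x := x) hi.1 (by omega)
      rw [h1, hx] at hi
      omega
  · obtain ⟨x, hx⟩ := exists_cell (k := k) (n := n) e i (ℓ := r) le_rfl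
    exact ⟨x, (diam_eq_succ_iff e x i).2 ⟨hx.le, by rw [hx]⟩⟩

theorem dst_adj {q : ℕ × ℕ} {a b : Fin k × Fin n} (h : (grid k n).Adj a b) :
    dst r q b ≤ dst r q a + 1 := by
  rw [grid_adj] at h
  unfold dst
  rcases h with ⟨h1, h2⟩ | ⟨h1, h2⟩
  · rw [h2]; omega
  · rw [h2]; omega

/-- The number of moves of a play that turns the diamonds into one colour. -/
theorem le_length_diam {d : Fin (m + 1)} (l : List ((Fin k × Fin n) × Fin (m + 1)))
    (hl : ∀ w, play (grid k n) (diam e) l w = d) :
    (m - 1) * (r / 2 + 1) ≤ 2 * l.length := by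
  have h1 : ∀ i : Fin m, (if i.succ = d then 0 else (r / 2 + 1)) ≤
      touch (grid k n) i.succ (diam e) l := by
    intro i
    by_cases hid : i.succ = d
    · rw [if_pos hid]; exact Nat.zero_le _
    · rw [if_neg hid]
      refine le_touch (f := fun x => min (dst r (bx e i) x) (r + 1)) (Ne.symm hid) ?_ ?_ ?_ l hl
      · intro a b hab
        have := dst_adj (r := r) (q := bx e i) hab
        omega
      · intro ℓ hℓ
        obtain ⟨x, hx⟩ := exists_cell (k := k) (n := n) e i hℓ
        refine ⟨x, ?_⟩
        simp only [hx]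
        omega
      · intro x
        unfold ParityGood
        by_cases hx : diam e x = i.succ
        · rw [if_pos hx]
          have := (diam_eq_succ_iff e x i).1 hx
          rw [min_eq_left (by omega)]
          exact this.2
        · rw [if_neg hx]
          have h2 : ¬ (dst r (bx e i) x ≤ r ∧ dst r (bx e i) x % 2 = r % 2) :=
            fun h => hx ((diam_eq_succ_iff e x i).2 h)
          by_cases h3 : dst r (bx e i) x ≤ r
          · rw [min_eq_left (by omega)]
            have h4 : ¬ dst r (bx e i) x % 2 = r % 2 := fun h => h2 ⟨h3, h⟩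
            omega
          · rw [min_eq_right (by omega)]
  have h2 : ∑ i : Fin m, (if i.succ = d then 0 else (r / 2 + 1)) ≤ 2 * l.length := by
    refine (sum_le_sum fun i _ => h1 i).trans (le_trans ?_ (sum_touch_le (G := grid k n) l (diam e)))
    rw [Fin.sum_univ_succ]
    exact Nat.le_add_left _ _
  have h3 : ∑ i : Fin m, (if i.succ = d then (r / 2 + 1) else 0) ≤ r / 2 + 1 := by
    rw [← sum_filter, sum_const, smul_eq_mul]
    have h4 : (univ.filter fun i : Fin m => i.succ = d).card ≤ 1 := by
      rw [card_le_one]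
      intro a ha b hb
      rw [mem_filter] at ha hb
      exact Fin.succ_injective m (ha.2.trans hb.2.symm)
    calc _ ≤ 1 * (r / 2 + 1) := Nat.mul_le_mul_right _ h4
      _ = _ := one_mul _
  have h5 : ∑ i : Fin m, (if i.succ = d then 0 else (r / 2 + 1)) +
      ∑ i : Fin m, (if i.succ = d then (r / 2 + 1) else 0) = m * (r / 2 + 1) := by
    rw [← sum_add_distrib]
    have h6 : ∀ i : Fin m, (if i.succ = d then 0 else (r / 2 + 1)) +
        (if i.succ = d then (r / 2 + 1) else 0) = r / 2 + 1 := by
      intro i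
      split_ifs <;> omega
    rw [sum_congr rfl fun i _ => h6 i, sum_const, card_univ, Fintype.card_fin, smul_eq_mul]
  have h7 : (m - 1) * (r / 2 + 1) = m * (r / 2 + 1) - (r / 2 + 1) := by
    rw [Nat.sub_mul, one_mul]
  omega

/-- The lower bound by diamonds. -/
theorem le_worstMoves_diam (hm : 1 ≤ m) (hkn : m < k * n)
    (hbox : m ≤ (k / (2 * r + 1)) * (n / (2 * r + 1))) :
    (m - 1) * (r / 2 + 1) ≤ 2 * worstMoves (grid k n) (m + 1) := by
  obtain ⟨e⟩ : Nonempty (Fin m ↪ Fin (k / (2 * r + 1)) × Fin (n / (2 * r + 1))) := by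
    apply Function.Embedding.nonempty_of_card_le
    simpa using hbox
  have hbdd : BddAbove {t | ∃ ω : Fin k × Fin n → Fin (m + 1), Function.Surjective ω ∧
      t = minMoves (grid k n) ω} := by
    have hfin : {t | ∃ ω : Fin k × Fin n → Fin (m + 1), Function.Surjective ω ∧
        t = minMoves (grid k n) ω}.Finite := by
      refine (Set.finite_range
        (fun ω : Fin k × Fin n → Fin (m + 1) => minMoves (grid k n) ω)).subset ?_
      rintro t ⟨ω, _, rfl⟩
      exact ⟨ω, rfl⟩
    exact hfin.bddAbove
  have h1 : ((m - 1) * (r / 2 + 1) + 1) / 2 ≤ minMoves (grid k n) (diam e) := by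
    refine le_minMoves ?_ (fun d => exists_play_const _ d)
    intro d l hl
    have := le_length_diam e l hl
    omega
  have h2 := le_csSup hbdd ⟨diam e, diam_surjective e hm hkn, rfl⟩
  have h3 : minMoves (grid k n) (diam e) ≤ worstMoves (grid k n) (m + 1) := h2
  omega

end diamonds

end Pool.Agent.Lib.FloodIt
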