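import Pool.Agent.Lib.FloodIt.TwoRows

/-!
# Flood-It: a potential for level colourings

Let `f : V → ℕ` be a function on the vertices of a graph that changes by at most one along every
edge, and colour the vertex `x` with `f x` modulo `c`. The number of pairs (monochromatic
component, level met by it of another colour) is `0` for this colouring and grows by at most one
in every move. Hence the game takes at least `L - ⌈L/c⌉` moves, if `f` takes the values
`0, …, L - 1`.
-/

namespace Pool.Agent.Lib.FloodIt

open Finset

variable {V : Type*} {G : SimpleGraph V} {c : ℕ}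

/-- Discrete intermediate value theorem along a walk. -/
theorem exists_level {M : SimpleGraph V} {f : V → ℕ}
    (hf : ∀ a b, M.Adj a b → f b ≤ f a + 1) {a b : V} (p : M.Walk a b) :
    ∀ ℓ, f a ≤ ℓ → ℓ ≤ f b → ∃ y, M.Reachable a y ∧ f y = ℓ := by
  induction p with
  | nil =>
    intro ℓ h1 h2
    exact ⟨_, SimpleGraph.Reachable.refl _, le_antisymm h1 h2⟩
  | @cons u v w hadj q ih =>
    intro ℓ h1 h2
    rcases Nat.eq_or_lt_of_le h1 with h | h
    · exact ⟨u, SimpleGraph.Reachable.refl _, h⟩
    · obtain ⟨y, hy1, hy2⟩ := ih ℓ (by have := hf u v hadj; omega) h2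
      exact ⟨y, hadj.reachable.trans hy1, hy2⟩

/-- In an interval of integers, the residue class `e` has at most one element more than the
residue class `d`. -/
theorem card_residue_le (hc : 0 < c) (I : Finset ℕ)
    (hI : ∀ a ∈ I, ∀ b ∈ I, ∀ x, a ≤ x → x ≤ b → x ∈ I) (d e : ℕ) :
    (I.filter fun x => x % c = e % c).card ≤ (I.filter fun x => x % c = d % c).card + 1 := by
  classical
  by_cases hne : (I.filter fun x => x % c = e % c).Nonempty
  · set E := I.filter fun x => x % c = e % c with hE
    set m := E.max' hne with hm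
    have hmE : m ∈ E := E.max'_mem hne
    have hcard : (E.erase m).card + 1 = E.card := card_erase_add_one hmE
    rw [← hcard]
    refine Nat.add_le_add_right ?_ 1
    -- the shift
    set δ := (d % c + (c - e % c)) % c with hδ
    have hδc : δ < c := Nat.mod_lt _ hc
    refine card_le_card_of_injOn (fun x => x + δ) ?_ ?_
    · intro x hx
      simp only [Finset.coe_erase, Set.mem_sdiff, Finset.mem_coe, Set.mem_singleton_iff] at hx
      obtain ⟨hxE, hxm⟩ := hx
      have hxE' := hxE
      rw [hE, mem_filter] at hxE'
      have hmE' := hmE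
      rw [hE, mem_filter] at hmE'
      have hle : x ≤ m := E.le_max' x hxE
      have hlt : x < m := lt_of_le_of_ne hle hxm
      have hmod : x % c = m % c := hxE'.2.trans hmE'.2.symm
      have hcm : x + c ≤ m := by
        have h1 : c ∣ m - x := (Nat.modEq_iff_dvd' hle).1 hmod
        have h2 := Nat.le_of_dvd (by omega) h1
        omega
      have hin : x + δ ∈ I := hI x hxE'.1 m hmE'.1 _ (Nat.le_add_right _ _) (by omega)
      simp only [Finset.coe_filter, Set.mem_ofPred_eq]
      refine ⟨hin, ?_⟩
      have he : e % c < c := Nat.mod_lt _ hc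
      have h3 : (x + δ) % c = (x % c + (d % c + (c - e % c))) % c := by
        rw [hδ, Nat.add_mod, Nat.mod_mod, ← Nat.add_mod]
        conv_rhs => rw [Nat.add_mod, Nat.mod_mod, ← Nat.add_mod]
      rw [h3, hxE'.2]
      have h4 : e % c + (d % c + (c - e % c)) = d % c + c := by omega
      rw [h4, Nat.add_mod_right, Nat.mod_mod]
    · intro x _ y _ hxy
      simpa using hxy
  · rw [not_nonempty_iff_eq_empty] at hne
    rw [hne]
    simp

section potential

variable [Fintype V] [DecidableEq V]

/-- `good ℓ e` says that level `ℓ` tolerates the colour `e`. The condition: in an interval of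
levels a colour is tolerated by at most one level more than any other colour. -/
def Balanced (good : ℕ → Fin c → Prop) : Prop :=
  ∀ I : Finset ℕ, (∀ a ∈ I, ∀ b ∈ I, ∀ x, a ≤ x → x ≤ b → x ∈ I) → ∀ (d e : Fin c)
    [DecidablePred fun ℓ => good ℓ e] [DecidablePred fun ℓ => good ℓ d],
    (I.filter fun ℓ => good ℓ e).card ≤ (I.filter fun ℓ => good ℓ d).card + 1

open Classical in
/-- The pairs (monochromatic component of `ω`, level met by it), taken over the vertices whose
level does not tolerate their colour `κ`. -/
noncomputable def pairs (G : SimpleGraph V) (f : V → ℕ) (good : ℕ → Fin c → Prop)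
    (ω κ : V → Fin c) : Finset ((mono G ω).ConnectedComponent × ℕ) :=
  (univ.filter fun x => ¬ good (f x) (κ x)).image
    fun x => ((mono G ω).connectedComponentMk x, f x)

theorem reachable_of_move {ω : V → Fin c} {v : V} {d : Fin c} {a b : V}
    (h : (mono G ω).Reachable a b) : (mono G (move G ω v d)).Reachable a b := by
  obtain ⟨p⟩ := h
  induction p with
  | nil => exact SimpleGraph.Reachable.refl _
  | @cons x y z hadj q ih =>
    refine SimpleGraph.Reachable.trans ?_ ih
    have h1 : (mono G (move G ω v d)).Adj x y := by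
      refine ⟨hadj.1, ?_⟩
      by_cases hx : (mono G ω).Reachable v x
      · rw [move_of_reachable hx, move_of_reachable (hx.trans hadj.reachable)]
      · have hy : ¬ (mono G ω).Reachable v y := fun hy => hx (hy.trans hadj.symm.reachable)
        rw [move_of_not hx, move_of_not hy]
        exact hadj.2
    exact h1.reachable

theorem card_pairs_move_le_add {good : ℕ → Fin c → Prop} {f : V → ℕ}
    (hf : ∀ a b, G.Adj a b → f b ≤ f a + 1) (ω : V → Fin c) (v : V) (d : Fin c) {B : ℕ}
    (hB : ∀ I : Finset ℕ, (∀ a ∈ I, ∀ b ∈ I, ∀ x, a ≤ x → x ≤ b → x ∈ I) →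
      ∀ [DecidablePred fun ℓ => good ℓ (ω v)] [DecidablePred fun ℓ => good ℓ d],
      (I.filter fun ℓ => good ℓ (ω v)).card ≤ (I.filter fun ℓ => good ℓ d).card + B) :
    (pairs G f good (move G ω v d) (move G ω v d)).card ≤ (pairs G f good ω ω).card + B := by
  classical
  set ω' := move G ω v d with hω'
  -- components only merge
  have hφ : ∀ a b, (mono G ω).Reachable a b → (mono G ω').Reachable a b :=
    fun a b h => reachable_of_move h
  let φ : (mono G ω).ConnectedComponent → (mono G ω').ConnectedComponent :=
    SimpleGraph.ConnectedComponent.lift (fun x => (mono G ω').connectedComponentMk x)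
      (fun a b p _ => SimpleGraph.ConnectedComponent.sound (hφ a b ⟨p⟩))
  have h1 : (pairs G f good ω' ω').card ≤ (pairs G f good ω ω').card := by
    have h2 : pairs G f good ω' ω' = (pairs G f good ω ω').image (fun q => (φ q.1, q.2)) := by
      unfold pairs
      rw [image_image]
      rfl
    rw [h2]
    exact card_image_le
  refine h1.trans ?_
  -- split off the component of `v`
  set K := (mono G ω).connectedComponentMk v with hK
  have hmemK : ∀ x, (mono G ω).connectedComponentMk x = K ↔ (mono G ω).Reachable v x := by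
    intro x
    rw [hK]
    constructor
    · intro h
      exact (SimpleGraph.ConnectedComponent.exact h).symm
    · intro h
      exact SimpleGraph.ConnectedComponent.sound h.symm
  have hsplit : ∀ κ : V → Fin c, (pairs G f good ω κ).card =
      ((pairs G f good ω κ).filter fun q => q.1 = K).card +
      ((pairs G f good ω κ).filter fun q => ¬ q.1 = K).card := by
    intro κ
    exact (card_filter_add_card_filter_not
      (fun q : (mono G ω).ConnectedComponent × ℕ => q.1 = K)).symm
  rw [hsplit ω', hsplit ω]
  -- outside `K` nothing changes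
  have hout : (pairs G f good ω ω').filter (fun q => ¬ q.1 = K) =
      (pairs G f good ω ω).filter (fun q => ¬ q.1 = K) := by
    ext ⟨C, ℓ⟩
    simp only [pairs, mem_filter, mem_image, mem_univ, true_and, Prod.mk.injEq]
    constructor
    · rintro ⟨⟨x, hx1, hx2, hx3⟩, hC⟩
      have hnot : ¬ (mono G ω).Reachable v x := fun h => hC (hx2 ▸ (hmemK x).2 h)
      refine ⟨⟨x, ?_, hx2, hx3⟩, hC⟩
      rwa [hω', move_of_not hnot] at hx1
    · rintro ⟨⟨x, hx1, hx2, hx3⟩, hC⟩
      have hnot : ¬ (mono G ω).Reachable v x := fun h => hC (hx2 ▸ (hmemK x).2 h)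
      refine ⟨⟨x, ?_, hx2, hx3⟩, hC⟩
      rwa [hω', move_of_not hnot]
  rw [hout]
  -- the levels of `K`
  set I : Finset ℕ := (univ.filter fun x => (mono G ω).Reachable v x).image f with hI
  have hconv : ∀ a ∈ I, ∀ b ∈ I, ∀ x, a ≤ x → x ≤ b → x ∈ I := by
    intro a ha b hb x hax hxb
    rw [hI, mem_image] at ha hb ⊢
    obtain ⟨u, hu, rfl⟩ := ha
    obtain ⟨w, hw, rfl⟩ := hb
    simp only [mem_filter, mem_univ, true_and] at hu hw
    obtain ⟨p⟩ := hu.symm.trans hw
    obtain ⟨y, hy1, hy2⟩ := exists_level (M := mono G ω) (f := f)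
      (fun a b h => hf a b h.1) p x hax hxb
    exact ⟨y, by simpa using hu.trans hy1, hy2⟩
  -- the pairs at `K`, for a colouring constant on `K`
  have hcount : ∀ (κ : V → Fin c) (e : Fin c), (∀ x, (mono G ω).Reachable v x → κ x = e) →
      ((pairs G f good ω κ).filter fun q => q.1 = K).card +
        (I.filter fun x => good x e).card = I.card := by
    intro κ e hκ
    have h3 : ((pairs G f good ω κ).filter fun q => q.1 = K) =
        (I.filter fun x => ¬ good x e).image (fun ℓ => (K, ℓ)) := by
      ext ⟨C, ℓ⟩
      simp only [pairs, mem_filter, mem_image, mem_univ, true_and, Prod.mk.injEq, hI]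
      constructor
      · rintro ⟨⟨x, hx1, hx2, hx3⟩, hC⟩
        have hr : (mono G ω).Reachable v x := (hmemK x).1 (hx2.trans hC)
        refine ⟨ℓ, ⟨⟨x, hr, hx3⟩, ?_⟩, hC.symm, rfl⟩
        rwa [hκ x hr, hx3] at hx1
      · rintro ⟨ℓ', ⟨⟨x, hr, hx3⟩, hne⟩, hC, hℓ⟩
        subst hℓ
        refine ⟨⟨x, ?_, ((hmemK x).2 hr).trans hC, hx3⟩, hC.symm⟩
        rwa [hκ x hr, hx3]
    rw [h3, card_image_of_injective _ (fun a b h => (Prod.mk.inj h).2), add_comm]
    exact card_filter_add_card_filter_not (fun x => good x e)
  have h5 := hcount ω' d (fun x hx => by rw [hω']; exact move_of_reachable hx)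
  have h6 := hcount ω (ω v) (fun x hx => (color_eq_of_reachable hx).symm)
  have h7 := hB I hconv
  omega

theorem card_pairs_move_le {good : ℕ → Fin c → Prop} (hg : Balanced good) {f : V → ℕ}
    (hf : ∀ a b, G.Adj a b → f b ≤ f a + 1) (ω : V → Fin c) (v : V) (d : Fin c) :
    (pairs G f good (move G ω v d) (move G ω v d)).card ≤ (pairs G f good ω ω).card + 1 :=
  card_pairs_move_le_add hf ω v d fun I hI _ _ => hg I hI d (ω v)

/-- The potential after a play. -/
theorem card_pairs_play_le {good : ℕ → Fin c → Prop} (hg : Balanced good) {f : V → ℕ}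
    (hf : ∀ a b, G.Adj a b → f b ≤ f a + 1) (l : List (V × Fin c)) : ∀ ω : V → Fin c,
    (pairs G f good (play G ω l) (play G ω l)).card ≤ (pairs G f good ω ω).card + l.length := by
  induction l with
  | nil => intro ω; simp [play]
  | cons p l ih =>
    intro ω
    have h1 := ih (move G ω p.1 p.2)
    have h2 := card_pairs_move_le hg hf ω p.1 p.2
    simp only [play, List.length_cons]
    omega

/-- The number of moves of a play that turns a colouring tolerated by all levels into a constant
one. -/
theorem le_length_of_good {good : ℕ → Fin c → Prop} (hg : Balanced good) {f : V → ℕ}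
    (hf : ∀ a b, G.Adj a b → f b ≤ f a + 1) {L : ℕ} (hL : ∀ ℓ < L, ∃ x, f x = ℓ)
    {ω : V → Fin c} (hω : ∀ x, good (f x) (ω x)) (d : Fin c)
    {B : ℕ} (hB : ∀ S : Finset ℕ, (∀ ℓ ∈ S, ℓ < L ∧ good ℓ d) → S.card ≤ B)
    (l : List (V × Fin c)) (hl : ∀ w, play G ω l w = d) : L ≤ l.length + B := by
  classical
  have h1 := card_pairs_play_le hg hf l ω
  have h2 : pairs G f good ω ω = ∅ := by
    unfold pairs
    rw [image_eq_empty, filter_eq_empty_iff]
    intro x _ h
    exact h (hω x)
  rw [h2, card_empty, zero_add] at h1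
  have h3 : ((range L).filter fun x => ¬ good x d) ⊆
      (pairs G f good (play G ω l) (play G ω l)).image Prod.snd := by
    intro ℓ hℓ
    rw [mem_filter, mem_range] at hℓ
    obtain ⟨x, hx⟩ := hL ℓ hℓ.1
    rw [mem_image]
    refine ⟨((mono G (play G ω l)).connectedComponentMk x, f x), ?_, hx⟩
    unfold pairs
    rw [mem_image]
    refine ⟨x, ?_, rfl⟩
    rw [mem_filter]
    refine ⟨mem_univ _, ?_⟩
    rw [hl x, hx]
    exact hℓ.2
  have h4 := (card_le_card h3).trans card_image_le
  have h5 : ((range L).filter fun x => good x d).card +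
      ((range L).filter fun x => ¬ good x d).card = L := by
    rw [card_filter_add_card_filter_not, card_range]
  have h6 := hB ((range L).filter fun x => good x d) (fun ℓ h => by simpa using h)
  omega

theorem card_residue_range_le (hc : 0 < c) (L d : ℕ) (hd : d < c) :
    ((range L).filter fun x => x % c = d).card ≤ ⌈(L : ℚ) / c⌉₊ := by
  have h1 : ((range L).filter fun x => x % c = d).card = L.count (· ≡ d [MOD c]) := by
    rw [Nat.count_eq_card_filter_range]
    congr 1
    ext x
    simp only [mem_filter, Nat.ModEq, Nat.mod_eq_of_lt hd]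
  rw [h1, Nat.count_modEq_card L hc d, Nat.mod_eq_of_lt hd]
  have hcq : (0 : ℚ) < c := by exact_mod_cast hc
  have hdiv := Nat.div_add_mod L c
  split_ifs with h
  · rw [Nat.succ_le_iff, Nat.lt_ceil, lt_div_iff₀ hcq]
    have h2 : L / c * c < L := by
      have := Nat.mul_comm c (L / c)
      omega
    exact_mod_cast h2
  · have h2 : ((L / c : ℕ) : ℚ) ≤ (L : ℚ) / c := Nat.cast_div_le
    have h3 : ((L / c : ℕ) : ℚ) ≤ (⌈(L : ℚ) / c⌉₊ : ℕ) := h2.trans (Nat.le_ceil _)
    simpa using (by exact_mod_cast h3 : L / c ≤ ⌈(L : ℚ) / c⌉₊)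

/-- Every colouring of a finite graph can be made constant: recolour the vertices one by one. -/
theorem exists_play_const (ω : V → Fin c) (d : Fin c) :
    ∃ l : List (V × Fin c), ∀ w, play G ω l w = d := by
  have key : ∀ (l : List V) (ω : V → Fin c) (w : V), (w ∈ l ∨ ω w = d) →
      play G ω (l.map fun v => (v, d)) w = d := by
    intro l
    induction l with
    | nil =>
      intro ω w h
      rcases h with h | h
      · simp at h
      · exact h
    | cons v l ih =>
      intro ω w h
      simp only [List.map_cons, play]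
      apply ih
      by_cases h1 : (mono G ω).Reachable v w
      · right; exact move_of_reachable h1
      · rcases h with h | h
        · rcases List.mem_cons.1 h with h2 | h2
          · subst h2
            exact absurd (SimpleGraph.Reachable.refl _) h1
          · left; exact h2
        · right; rw [move_of_not h1]; exact h
  exact ⟨(univ : Finset V).toList.map fun v => (v, d), fun w => key _ ω w (Or.inl (by simp))⟩

/-- A surjective map `f` onto `N` values is refined by a surjective map onto `c` values. -/
theorem exists_refinement {N : ℕ} (f : V → Fin N) (hf : Function.Surjective f) :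
    ∀ c : ℕ, N ≤ c → c ≤ Fintype.card V →
      ∃ g : V → Fin c, Function.Surjective g ∧ ∀ x y, g x = g y → f x = f y := by
  intro c hNc
  induction c, hNc using Nat.le_induction with
  | base => intro _; exact ⟨f, hf, fun _ _ h => h⟩
  | succ c hNc ih =>
    intro hcV
    obtain ⟨g, hg, hgf⟩ := ih (by omega)
    have hninj : ¬ Function.Injective g := by
      intro hinj
      have h1 := Fintype.card_le_of_injective g hinj
      rw [Fintype.card_fin] at h1
      omega
    simp only [Function.Injective, not_forall] at hninj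
    obtain ⟨x, y, hxy, hne⟩ := hninj
    refine ⟨fun z => if z = x then Fin.last c else (g z).castSucc, ?_, ?_⟩
    · intro r
      rcases Fin.eq_castSucc_or_eq_last r with ⟨r', rfl⟩ | rfl
      · obtain ⟨z, hz⟩ := hg r'
        by_cases hzx : z = x
        · refine ⟨y, ?_⟩
          simp only [if_neg (Ne.symm hne)]
          rw [← hxy, ← hzx, hz]
        · refine ⟨z, ?_⟩
          simp only [if_neg hzx, hz]
      · exact ⟨x, by simp⟩
    · intro u v huv
      simp only at huv
      by_cases hu : u = x
      · by_cases hv : v = x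
        · rw [hu, hv]
        · simp only [hu, if_true, if_neg hv] at huv
          exact absurd huv.symm (Fin.castSucc_ne_last _)
      · by_cases hv : v = x
        · simp only [hv, if_true, if_neg hu] at huv
          exact absurd huv (Fin.castSucc_ne_last _)
        · simp only [if_neg hu, if_neg hv, Fin.castSucc_inj] at huv
          exact hgf u v huv

theorem le_worstMoves_of_levels {f : V → ℕ} (hf : ∀ a b, G.Adj a b → f b ≤ f a + 1)
    {L : ℕ} (hL : ∀ ℓ < L, ∃ x, f x = ℓ) (hfL : ∀ x, f x < L) (hc : 0 < c)
    (hcV : c ≤ Fintype.card V) :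
    L - ⌈(L : ℚ) / c⌉₊ ≤ worstMoves G c := by
  classical
  have hne : Nonempty (Fin c) := ⟨⟨0, hc⟩⟩
  have hbdd : BddAbove {t | ∃ ω : V → Fin c, Function.Surjective ω ∧ t = minMoves G ω} := by
    have hfin : {t | ∃ ω : V → Fin c, Function.Surjective ω ∧ t = minMoves G ω}.Finite := by
      refine (Set.finite_range (fun ω : V → Fin c => minMoves G ω)).subset ?_
      rintro t ⟨ω, _, rfl⟩
      exact ⟨ω, rfl⟩
    exact hfin.bddAbove
  rcases le_total c L with hcL | hcL
  · -- the levels are coloured periodically
    set good : ℕ → Fin c → Prop := fun ℓ e => ℓ % c = e.val with hgood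
    have hg : Balanced good := by
      intro I hI d e _ _
      have h1 := card_residue_le hc I hI d.val e.val
      rw [Nat.mod_eq_of_lt d.isLt, Nat.mod_eq_of_lt e.isLt] at h1
      refine (card_le_card ?_).trans (h1.trans (Nat.add_le_add_right (card_le_card ?_) 1))
      · intro ℓ hℓ
        exact (@mem_filter _ _ (_) _ _).2 ((@mem_filter _ _ (_) _ _).1 hℓ)
      · intro ℓ hℓ
        exact (@mem_filter _ _ (_) _ _).2 ((@mem_filter _ _ (_) _ _).1 hℓ)
    let ω : V → Fin c := fun x => ⟨f x % c, Nat.mod_lt _ hc⟩
    have h1 : L - ⌈(L : ℚ) / c⌉₊ ≤ minMoves G ω := by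
      refine le_minMoves ?_ (fun d => exists_play_const _ d)
      intro d l hl
      have h3 := card_residue_range_le hc L d.val d.isLt
      have h2 := le_length_of_good hg hf hL (ω := ω) (fun x => rfl) d
        (B := ⌈(L : ℚ) / c⌉₊) (fun S hS => (card_le_card fun ℓ hℓ => by
          simpa [hgood] using hS ℓ hℓ).trans h3) l hl
      omega
    refine h1.trans (le_csSup hbdd ⟨ω, ?_, rfl⟩)
    intro r
    obtain ⟨x, hx⟩ := hL r.val (lt_of_lt_of_le r.isLt hcL)
    refine ⟨x, Fin.ext ?_⟩
    simp only [ω, hx, Nat.mod_eq_of_lt r.isLt]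
  · -- each colour occurs on one level only
    obtain ⟨ω, hω, hωf⟩ := exists_refinement (V := V) (fun x => (⟨f x, hfL x⟩ : Fin L))
      (fun r => by obtain ⟨x, hx⟩ := hL r.val r.isLt; exact ⟨x, Fin.ext hx⟩) c hcL hcV
    set good : ℕ → Fin c → Prop := fun ℓ e => ∃ x, ω x = e ∧ f x = ℓ with hgood
    have huniq : ∀ e a b, good a e → good b e → a = b := by
      rintro e a b ⟨x, hx, rfl⟩ ⟨y, hy, rfl⟩
      have h := hωf x y (hx.trans hy.symm)
      simpa using h
    have hcard1 : ∀ (I : Finset ℕ) (e : Fin c) [DecidablePred fun ℓ => good ℓ e],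
        (I.filter fun ℓ => good ℓ e).card ≤ 1 := by
      intro I e _
      rw [card_le_one]
      intro a ha b hb
      rw [mem_filter] at ha hb
      exact huniq e a b ha.2 hb.2
    have hg : Balanced good := by
      intro I _ d e _ _
      have := hcard1 I e
      omega
    have h1 : L - ⌈(L : ℚ) / c⌉₊ ≤ minMoves G ω := by
      refine le_minMoves ?_ (fun d => exists_play_const _ d)
      intro d l hl
      have h2 := le_length_of_good hg hf hL (ω := ω) (fun x => ⟨x, rfl, rfl⟩) d (B := 1)
        (fun S hS => card_le_one.2 fun a ha b hb => huniq d a b (hS a ha).2 (hS b hb).2) l hl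
      rcases Nat.eq_zero_or_pos L with hL0 | hL0
      · omega
      · have h4 : 0 < ⌈(L : ℚ) / c⌉₊ := by
          rw [Nat.ceil_pos]
          have : (0 : ℚ) < L := by exact_mod_cast hL0
          have : (0 : ℚ) < c := by exact_mod_cast hc
          positivity
        omega
    exact h1.trans (le_csSup hbdd ⟨ω, hω, rfl⟩)

end potential

/-- The diagonal colouring of the grid. -/
theorem le_worstMoves_grid {k n : ℕ} (hk : 1 ≤ k) (hn : 1 ≤ n) (hc : 1 ≤ c)
    (hcL : c ≤ k * n) :
    (n + k - 1) - ⌈((n + k - 1 : ℕ) : ℚ) / c⌉₊ ≤ worstMoves (grid k n) c := by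
  refine le_worstMoves_of_levels (f := fun x => x.1.val + x.2.val) ?_ ?_ ?_ hc ?_
  · intro a b h
    rw [grid_adj] at h
    rcases h with ⟨h1, h2⟩ | ⟨h1, h2⟩
    · simp only [h2]; omega
    · simp only [h2]; omega
  · intro ℓ hℓ
    refine ⟨(⟨min ℓ (k - 1), by omega⟩, ⟨ℓ - min ℓ (k - 1), by omega⟩), ?_⟩
    simp only
    omega
  · intro x
    have h1 := x.1.isLt
    have h2 := x.2.isLt
    omega
  · simpa using hcL

end Pool.Agent.Lib.FloodIt
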