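import Pool.Agent.Lib.FloodIt.Comb
import Pool.Agent.Lib.FloodIt.Diamonds

/-!
# Flood-It on grids: the order of magnitude of the worst case

For `2 ≤ c ≤ kn` the number `M_c(G_{k,n})` has the order `n + k + √(ckn)`.
-/

namespace Pool.Agent.Lib.FloodIt

theorem add_le_two_mul_worstMoves {k n c : ℕ} (hk : 1 ≤ k) (hn : 1 ≤ n) (hc : 2 ≤ c)
    (hcn : c ≤ k * n) :
    n + k ≤ 2 * worstMoves (grid k n) c + 2 ∧ 1 ≤ worstMoves (grid k n) c := by
  have h1 := le_worstMoves_grid hk hn (by omega : 1 ≤ c) hcn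
  have h2 : ⌈((n + k - 1 : ℕ) : ℚ) / c⌉₊ ≤ (n + k) / 2 := by
    rw [Nat.ceil_le, div_le_iff₀ (by exact_mod_cast (by omega : 0 < c))]
    have h3 : n + k - 1 ≤ (n + k) / 2 * 2 := by omega
    have h4 : (n + k) / 2 * 2 ≤ (n + k) / 2 * c := Nat.mul_le_mul_left _ hc
    exact_mod_cast h3.trans h4
  have h5 : 3 ≤ n + k := by
    by_contra h
    have h6 : n = 1 := by omega
    have h7 : k = 1 := by omega
    subst h6 h7
    omega
  omega

theorem sqrt_le_worstMoves {k n c : ℕ} (hk : 1 ≤ k) (hn : 1 ≤ n) (hc : 2 ≤ c)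
    (hcn : c ≤ k * n) :
    √((c : ℝ) * k * n) ≤ 25 * (worstMoves (grid k n) c : ℝ) := by
  obtain ⟨hM1, hM2⟩ := add_le_two_mul_worstMoves hk hn hc hcn
  set M := worstMoves (grid k n) c with hM
  have hM1' : (n : ℝ) + k ≤ 2 * M + 2 := by exact_mod_cast hM1
  have hM2' : (1 : ℝ) ≤ M := by exact_mod_cast hM2
  have hk' : (1 : ℝ) ≤ k := by exact_mod_cast hk
  have hn' : (1 : ℝ) ≤ n := by exact_mod_cast hn
  have hc' : (2 : ℝ) ≤ c := by exact_mod_cast hc
  have hcn' : (c : ℝ) ≤ k * n := by exact_mod_cast hcn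
  rcases Nat.lt_or_ge 100 c with hc100 | hc100
  · -- many colours
    have hc100' : (101 : ℝ) ≤ c := by exact_mod_cast hc100
    have hcpos : (0 : ℝ) < c := by linarith
    set σ := √((k : ℝ) * n / c) with hσ
    have hσ0 : 0 ≤ σ := Real.sqrt_nonneg _
    have hσsq : σ ^ 2 = (k : ℝ) * n / c := Real.sq_sqrt (by positivity)
    have hσsq' : σ ^ 2 * c = (k : ℝ) * n := by rw [hσsq]; field_simp
    have hcσ : √((c : ℝ) * k * n) = c * σ := by
      have h1 : (c : ℝ) * k * n = (c * σ) ^ 2 := by
        rw [mul_pow, mul_assoc, ← hσsq']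
        ring
      rw [h1, Real.sqrt_sq (by positivity)]
    rw [hcσ]
    obtain ⟨m, rfl⟩ : ∃ m, c = m + 1 := ⟨c - 1, by omega⟩
    rcases le_or_gt σ 6 with h6 | h6
    · have h1 := le_worstMoves_diam (k := k) (n := n) (m := m) (r := 0) (by omega) (by omega)
        (by simpa using (by omega : m ≤ k * n))
      rw [← hM] at h1
      have h2 : m - 1 ≤ 2 * M := by simpa using h1
      have h3 : m + 1 ≤ 2 * M + 2 := by omega
      have h4 : ((m + 1 : ℕ) : ℝ) ≤ 2 * M + 2 := by exact_mod_cast h3
      nlinarith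
    · set r := ⌊(σ / 2 - 1) / 2⌋₊ with hr
      have hr1 : (r : ℝ) ≤ (σ / 2 - 1) / 2 := Nat.floor_le (by linarith)
      have hr2 : (σ / 2 - 1) / 2 < r + 1 := Nat.lt_floor_add_one _
      have hs : ((2 * r + 1 : ℕ) : ℝ) ≤ σ / 2 := by
        push_cast
        linarith
      rcases Nat.lt_or_ge k (2 * r + 1) with hks | hks
      · -- few rows
        have h1 : (k : ℝ) ≤ σ / 2 := (by exact_mod_cast hks.le : (k : ℝ) ≤ (2 * r + 1 : ℕ)).trans hs
        have h2 : 4 * (k : ℝ) * (m + 1 : ℕ) ≤ n := by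
          have h3 : 4 * (k : ℝ) ^ 2 * (m + 1 : ℕ) ≤ k * n := by
            rw [← hσsq']
            have : 4 * (k : ℝ) ^ 2 ≤ σ ^ 2 := by nlinarith
            exact mul_le_mul_of_nonneg_right this (by positivity)
          have h4 : (k : ℝ) * (4 * k * (m + 1 : ℕ)) ≤ k * n := by linarith
          exact le_of_mul_le_mul_left h4 (by linarith)
        have h5 : ((m + 1 : ℕ) : ℝ) * σ ≤ n / 2 := by
          have h6' : (((m + 1 : ℕ) : ℝ) * σ) ^ 2 ≤ (n / 2) ^ 2 := by
            have h7 : (((m + 1 : ℕ) : ℝ) * σ) ^ 2 = (m + 1 : ℕ) * (k * n) := by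
              rw [← hσsq']; ring
            rw [h7]
            have h8 : 4 * (k : ℝ) * (m + 1 : ℕ) * n ≤ n * n :=
              mul_le_mul_of_nonneg_right h2 (by linarith)
            linarith
          exact (pow_le_pow_iff_left₀ (by positivity) (by positivity) two_ne_zero).1 h6'
        linarith
      · rcases Nat.lt_or_ge n (2 * r + 1) with hns | hns
        · -- few columns
          have h1 : (n : ℝ) ≤ σ / 2 :=
            (by exact_mod_cast hns.le : (n : ℝ) ≤ (2 * r + 1 : ℕ)).trans hs
          have h2 : 4 * (n : ℝ) * (m + 1 : ℕ) ≤ k := by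
            have h3 : 4 * (n : ℝ) ^ 2 * (m + 1 : ℕ) ≤ k * n := by
              rw [← hσsq']
              have : 4 * (n : ℝ) ^ 2 ≤ σ ^ 2 := by nlinarith
              exact mul_le_mul_of_nonneg_right this (by positivity)
            have h4 : (n : ℝ) * (4 * n * (m + 1 : ℕ)) ≤ n * k := by linarith
            exact le_of_mul_le_mul_left h4 (by linarith)
          have h5 : ((m + 1 : ℕ) : ℝ) * σ ≤ k / 2 := by
            have h6' : (((m + 1 : ℕ) : ℝ) * σ) ^ 2 ≤ (k / 2) ^ 2 := by
              have h7 : (((m + 1 : ℕ) : ℝ) * σ) ^ 2 = (m + 1 : ℕ) * (k * n) := by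
                rw [← hσsq']; ring
              rw [h7]
              have h8 : 4 * (n : ℝ) * (m + 1 : ℕ) * k ≤ k * k :=
                mul_le_mul_of_nonneg_right h2 (by linarith)
              linarith
            exact (pow_le_pow_iff_left₀ (by positivity) (by positivity) two_ne_zero).1 h6'
          linarith
        · -- the boxes fit
          have hbox : m ≤ (k / (2 * r + 1)) * (n / (2 * r + 1)) := by
            set s := 2 * r + 1 with hsdef
            have hspos : 0 < s := by omega
            have hA : k < 2 * (k / s) * s := by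
              have h1 : 1 ≤ k / s := (Nat.one_le_div_iff hspos).2 hks
              have h2 := Nat.lt_mul_div_succ k hspos
              have h3 : s * (k / s + 1) ≤ 2 * (k / s) * s := by
                have h4 : s * (k / s + 1) ≤ s * (2 * (k / s)) :=
                  Nat.mul_le_mul_left _ (by omega)
                calc s * (k / s + 1) ≤ s * (2 * (k / s)) := h4
                  _ = 2 * (k / s) * s := by ring
              omega
            have hB : n < 2 * (n / s) * s := by
              have h1 : 1 ≤ n / s := (Nat.one_le_div_iff hspos).2 hns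
              have h2 := Nat.lt_mul_div_succ n hspos
              have h3 : s * (n / s + 1) ≤ 2 * (n / s) * s := by
                have h4 : s * (n / s + 1) ≤ s * (2 * (n / s)) :=
                  Nat.mul_le_mul_left _ (by omega)
                calc s * (n / s + 1) ≤ s * (2 * (n / s)) := h4
                  _ = 2 * (n / s) * s := by ring
              omega
            have h1 : 4 * s ^ 2 * (m + 1) ≤ k * n := by
              have h2 : 4 * (s : ℝ) ^ 2 * (m + 1 : ℕ) ≤ k * n := by
                rw [← hσsq']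
                have h3 : 4 * (s : ℝ) ^ 2 ≤ σ ^ 2 := by
                  have h4 : (0 : ℝ) ≤ s := by positivity
                  nlinarith
                exact mul_le_mul_of_nonneg_right h3 (by positivity)
              exact_mod_cast h2
            by_contra hcon
            push Not at hcon
            have h2 : k * n < (2 * (k / s) * s) * (2 * (n / s) * s) :=
              Nat.mul_lt_mul'' hA hB
            have h3 : (2 * (k / s) * s) * (2 * (n / s) * s) =
                4 * s ^ 2 * ((k / s) * (n / s)) := by ring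
            have h4 : 4 * s ^ 2 * ((k / s) * (n / s)) ≤ 4 * s ^ 2 * (m + 1) :=
              Nat.mul_le_mul_left _ (by omega)
            omega
          have h1 := le_worstMoves_diam (k := k) (n := n) (m := m) (r := r) (by omega)
            (by omega) hbox
          rw [← hM] at h1
          have h2 : ((m : ℝ) - 1) * ((r / 2 : ℕ) + 1) ≤ 2 * M := by
            have h3 : ((m - 1 : ℕ) : ℝ) * ((r / 2 : ℕ) + 1) ≤ 2 * M := by exact_mod_cast h1
            rwa [Nat.cast_sub (by omega : 1 ≤ m), Nat.cast_one] at h3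
          have h4 : ((r : ℝ) + 1) / 2 ≤ (r / 2 : ℕ) + 1 := by
            have h5 : r + 1 ≤ 2 * (r / 2 + 1) := by omega
            have h6' : ((r : ℝ) + 1) ≤ 2 * ((r / 2 : ℕ) + 1) := by exact_mod_cast h5
            linarith
          have h5 : σ / 12 ≤ (r / 2 : ℕ) + 1 := by linarith
          have hm : (100 : ℝ) ≤ m := by
            have : 100 ≤ m := by omega
            exact_mod_cast this
          have h6' : ((m : ℝ) - 1) * (σ / 12) ≤ 2 * M :=
            (mul_le_mul_of_nonneg_left h5 (by linarith)).trans h2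
          push_cast
          nlinarith
  · -- few colours
    have hc100' : (c : ℝ) ≤ 100 := by exact_mod_cast hc100
    have h1 : √((c : ℝ) * k * n) ≤ 5 * (n + k) := by
      rw [Real.sqrt_le_left (by positivity)]
      have h2 : (c : ℝ) * k * n ≤ 100 * k * n := by
        have : (0 : ℝ) ≤ k * n := by positivity
        nlinarith
      nlinarith [sq_nonneg ((n : ℝ) - k)]
    linarith

theorem worstMoves_le_sqrt {k n c : ℕ} (hk : 1 ≤ k) (hn : 1 ≤ n) (hc : 1 ≤ c) :
    (worstMoves (grid k n) c : ℝ) ≤ n + k + 2 * √((c : ℝ) * k * n) := by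
  have hk' : (1 : ℝ) ≤ k := by exact_mod_cast hk
  have hn' : (1 : ℝ) ≤ n := by exact_mod_cast hn
  have hc' : (1 : ℝ) ≤ c := by exact_mod_cast hc
  have hcpos : (0 : ℝ) < c := by linarith
  set σ := √((k : ℝ) * n / c) with hσ
  have hσpos : 0 < σ := Real.sqrt_pos.2 (by positivity)
  have hσsq : σ ^ 2 = (k : ℝ) * n / c := Real.sq_sqrt (by positivity)
  have hσsq' : σ ^ 2 * c = (k : ℝ) * n := by rw [hσsq]; field_simp
  have hcσ : √((c : ℝ) * k * n) = c * σ := by
    have h1 : (c : ℝ) * k * n = (c * σ) ^ 2 := by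
      rw [mul_pow, mul_assoc, ← hσsq']
      ring
    rw [h1, Real.sqrt_sq (by positivity)]
  rw [hcσ]
  set h := ⌊σ⌋₊ with hh
  have h1 : (h : ℝ) ≤ σ := Nat.floor_le hσpos.le
  have h2 : σ < h + 1 := Nat.lt_floor_add_one _
  have h3 := worstMoves_le_comb (c := c) (k := k) (n := n) (by omega) (by omega) h
  have h4 : (worstMoves (grid k n) c : ℝ) ≤
      (k - 1 : ℕ) + ((k + 2 * h) / (2 * h + 1) : ℕ) * (n - 1 : ℕ) + c * h := by exact_mod_cast h3
  rw [Nat.cast_sub hk, Nat.cast_sub hn, Nat.cast_one] at h4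
  have h5 : (((k + 2 * h) / (2 * h + 1) : ℕ) : ℝ) ≤ k / σ + 1 := by
    have h6 : (((k + 2 * h) / (2 * h + 1) : ℕ) : ℝ) ≤ ((k + 2 * h : ℕ) : ℝ) / (2 * h + 1 : ℕ) :=
      Nat.cast_div_le
    have h7 : ((k + 2 * h : ℕ) : ℝ) / (2 * h + 1 : ℕ) ≤ k / (2 * h + 1 : ℕ) + 1 := by
      rw [div_add_one (by positivity), div_le_div_iff_of_pos_right (by positivity)]
      push_cast
      linarith
    have h8 : (k : ℝ) / (2 * h + 1 : ℕ) ≤ k / σ := by
      apply div_le_div_of_nonneg_left (by linarith) hσpos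
      push_cast
      have : (0 : ℝ) ≤ h := by positivity
      linarith
    linarith
  have h9 : (k : ℝ) / σ * n = c * σ := by
    rw [div_mul_eq_mul_div, div_eq_iff (ne_of_gt hσpos), ← hσsq']
    ring
  have h10 : (((k + 2 * h) / (2 * h + 1) : ℕ) : ℝ) * ((n : ℝ) - 1) ≤ (k / σ + 1) * n := by
    have h11 : (0 : ℝ) ≤ (((k + 2 * h) / (2 * h + 1) : ℕ) : ℝ) := by positivity
    have h12 : (0 : ℝ) ≤ (k : ℝ) / σ + 1 := by positivity
    calc (((k + 2 * h) / (2 * h + 1) : ℕ) : ℝ) * ((n : ℝ) - 1)
        ≤ (k / σ + 1) * ((n : ℝ) - 1) := mul_le_mul_of_nonneg_right h5 (by linarith)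
      _ ≤ (k / σ + 1) * n := mul_le_mul_of_nonneg_left (by linarith) h12
  have h13 : (c : ℝ) * h ≤ c * σ := mul_le_mul_of_nonneg_left h1 (by linarith)
  nlinarith

end Pool.Agent.Lib.FloodIt
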