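import Pool.Agent.Lib.FloodIt.TwoRows

/-!
# Two rows and many colours: swapped blocks

For `n ≤ c ≤ 2n` the `2 × n` grid has a surjective colouring with `c` colours that needs
`n - 1 + ⌊c/2⌋` moves: `β = ⌊(2n-c)/2⌋` swapped blocks `x y / y x`, all other cells different
(except one repeated colour if `c` is odd).
-/

namespace Pool.Agent.Lib.FloodIt

/-- A diagonal of two consecutive columns of the `2 × n` grid is separated by the other one. -/
theorem separated_diag {n : ℕ} (C : Type*) {r r' : Fin 2} (hr : r ≠ r') {p q : Fin n}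
    (hpq : p.val + 1 = q.val) :
    Separated (grid 2 n) C (r, p) (r', q) (r', p) (r, q) := by
  intro ω h
  by_contra hcon
  push Not at hcon
  obtain ⟨h1, h2⟩ := hcon
  obtain ⟨w⟩ := h
  have key : ∀ {a b : Fin 2 × Fin n} (_ : (mono (grid 2 n) ω).Walk a b),
      a.2.val ≤ p.val → ω a = ω (r, p) → b.2.val ≤ p.val := by
    intro a b w
    induction w with
    | nil => intro h _; exact h
    | @cons a b' _ hadj _ ih =>
      intro ha hca
      have hcb : ω b' = ω (r, p) := hadj.2.symm.trans hca
      refine ih ?_ hcb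
      by_contra hb
      have hadj' := hadj.1
      rw [grid_adj] at hadj'
      rcases hadj' with ⟨_, h3⟩ | ⟨h3, h4⟩
      · rw [h3] at ha; exact hb ha
      · have h5 : a.2 = p := Fin.ext (by omega)
        have h6 : b'.2 = q := Fin.ext (by omega)
        by_cases h7 : a.1 = r
        · apply h2
          rw [← hcb]
          congr 1
          exact Prod.ext (by rw [← h7, h4]) h6.symm
        · have h8 : a.1 = r' := by
            apply Fin.ext
            have h9 : a.1.val ≠ r.val := fun h' => h7 (Fin.ext h')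
            have h10 : r.val ≠ r'.val := fun h' => hr (Fin.ext h')
            have h11 := a.1.isLt
            have h12 := r.isLt
            have h13 := r'.isLt
            omega
          apply h1
          rw [← hca]
          congr 1
          exact Prod.ext h8.symm h5.symm
  have h3 := key w le_rfl rfl
  simp only at h3
  omega

section block

variable (c m : ℕ)

/-- The number of swapped blocks. -/
def nblocks : ℕ := (2 * (m + 1) - c) / 2

/-- Colour (as a natural number) of the cell in row `r`, column `j`. -/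
def blockVal (r j : ℕ) : ℕ :=
  if j < 2 * nblocks c m then 2 * (j / 2) + (j + r) % 2 else 2 * j + r - 2 * nblocks c m

/-- The colouring with swapped blocks. -/
def blockColor (hc : 0 < c) (w : Fin 2 × Fin (m + 1)) : Fin c :=
  ⟨min (blockVal c m w.1.val w.2.val) (c - 1), by omega⟩

variable {c m}

theorem nblocks_le (h1 : m + 1 ≤ c) : 2 * nblocks c m ≤ c ∧ 2 * nblocks c m ≤ m + 1 := by
  unfold nblocks
  omega

theorem blockColor_surjective (hc : 0 < c) (h1 : m + 1 ≤ c) (h2 : c ≤ 2 * (m + 1)) :
    Function.Surjective (blockColor c m hc) := by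
  intro z
  have hz := z.isLt
  obtain ⟨h3, h4⟩ := nblocks_le h1
  by_cases hz1 : z.val < 2 * nblocks c m
  · refine ⟨(⟨z.val % 2, by omega⟩, ⟨2 * (z.val / 2), by omega⟩), ?_⟩
    apply Fin.ext
    simp only [blockColor, blockVal]
    rw [if_pos (by omega)]
    omega
  · have h5 : 2 * nblocks c m ≤ 2 * (m + 1) - c := by unfold nblocks; omega
    refine ⟨(⟨z.val % 2, by omega⟩, ⟨(z.val + 2 * nblocks c m) / 2, by omega⟩), ?_⟩
    apply Fin.ext
    simp only [blockColor, blockVal]
    rw [if_neg (by omega)]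
    omega

theorem blockColor_val (hc : 0 < c) (h1 : m + 1 ≤ c) {i : ℕ} (hi : i < nblocks c m)
    (r : Fin 2) (j : Fin (m + 1)) (hj : j.val / 2 = i) :
    (blockColor c m hc (r, j)).val = 2 * i + (j.val + r.val) % 2 := by
  obtain ⟨h3, h4⟩ := nblocks_le h1
  simp only [blockColor, blockVal]
  rw [if_pos (by omega)]
  omega

variable (hc : 0 < c)

open Classical in
/-- The lower bound for the block colouring: a play has at least `c + β - 1` moves. -/
theorem le_length (h1 : m + 1 ≤ c) (h2 : c ≤ 2 * (m + 1)) (f : Fin c)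
    (l : List ((Fin 2 × Fin (m + 1)) × Fin c))
    (hf : ∀ w, play (grid 2 (m + 1)) (blockColor c m hc) l w = f) :
    c + nblocks c m ≤ l.length + 1 := by
  set G := grid 2 (m + 1) with hG
  set ω := blockColor c m hc with hω
  obtain ⟨h3, h4⟩ := nblocks_le h1
  set g : ℕ → ℕ := fun z => if h : z < c then oldCount G (⟨z, h⟩ : Fin c) ω l else 0 with hg
  have hsum : ∑ z ∈ Finset.range c, g z = l.length := by
    rw [← sum_oldCount (G := G) l ω, Finset.sum_fin_eq_sum_range]
  -- single colours
  have hsingle : ∀ z, z < c → 1 ≤ g z + (if f.val = z then 1 else 0) := by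
    intro z hz
    obtain ⟨w, hw⟩ := blockColor_surjective hc h1 h2 ⟨z, hz⟩
    by_cases hfz : f.val = z
    · simp [hfz]
    · have h5 : 1 ≤ oldCount G (⟨z, hz⟩ : Fin c) ω l := by
        refine one_le_oldCount l ω hw ?_
        rw [hf w]
        intro h6
        exact hfz (by rw [h6])
      simp only [hg, hz, dif_pos]
      omega
  -- swapped blocks
  have hblock : ∀ i, i < nblocks c m →
      3 ≤ g (2 * i) + g (2 * i + 1) + (if f.val = 2 * i ∨ f.val = 2 * i + 1 then 1 else 0) := by
    intro i hi
    have hx : 2 * i < c := by omega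
    have hy : 2 * i + 1 < c := by omega
    have hp : 2 * i < m + 1 := by omega
    have hq : 2 * i + 1 < m + 1 := by omega
    have hv := fun (r : Fin 2) (j : Fin (m + 1)) (hj : j.val / 2 = i) =>
      blockColor_val hc h1 hi r j hj
    have e1 : ω (0, ⟨2 * i, hp⟩) = ⟨2 * i, hx⟩ := by
      apply Fin.ext
      rw [hω, hv 0 ⟨2 * i, hp⟩ (by simp)]
      simp
    have e2 : ω (1, ⟨2 * i + 1, hq⟩) = ⟨2 * i, hx⟩ := by
      apply Fin.ext
      rw [hω, hv 1 ⟨2 * i + 1, hq⟩ (by simp only; omega)]
      simp only [Fin.val_one]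
      omega
    have e3 : ω (1, ⟨2 * i, hp⟩) = ⟨2 * i + 1, hy⟩ := by
      apply Fin.ext
      rw [hω, hv 1 ⟨2 * i, hp⟩ (by simp)]
      simp only [Fin.val_one]
      omega
    have e4 : ω (0, ⟨2 * i + 1, hq⟩) = ⟨2 * i + 1, hy⟩ := by
      apply Fin.ext
      rw [hω, hv 0 ⟨2 * i + 1, hq⟩ (by simp only; omega)]
      simp only [Fin.val_zero]
      omega
    have hs1 : Separated G (Fin c) (0, (⟨2 * i, hp⟩ : Fin (m + 1))) (1, ⟨2 * i + 1, hq⟩)
        (1, ⟨2 * i, hp⟩) (0, ⟨2 * i + 1, hq⟩) :=
      separated_diag (Fin c) (by decide) rfl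
    have hs2 : Separated G (Fin c) (1, (⟨2 * i, hp⟩ : Fin (m + 1))) (0, ⟨2 * i + 1, hq⟩)
        (0, ⟨2 * i, hp⟩) (1, ⟨2 * i + 1, hq⟩) :=
      separated_diag (Fin c) (by decide) rfl
    have hne : (⟨2 * i, hx⟩ : Fin c) ≠ ⟨2 * i + 1, hy⟩ := by
      intro h
      have := congrArg Fin.val h
      simp at this
    have h5 := three_le_oldCount hne hs1 hs2 f l ω e1 e2 e3 e4 hf
    have h6 : (f = ⟨2 * i, hx⟩ ∨ f = ⟨2 * i + 1, hy⟩) ↔
        (f.val = 2 * i ∨ f.val = 2 * i + 1) := by
      simp [Fin.ext_iff]
    simp only [h6] at h5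
    simp only [hg, hx, hy, dif_pos]
    exact h5
  -- sum over the blocks
  have hA : ∀ i, i ≤ nblocks c m →
      3 * i ≤ (∑ z ∈ Finset.range (2 * i), g z) + (if f.val < 2 * i then 1 else 0) := by
    intro i
    induction i with
    | zero => intro _; simp
    | succ i ih =>
      intro hi
      have h5 := ih (by omega)
      have h6 := hblock i (by omega)
      have h7 : 2 * (i + 1) = 2 * i + 1 + 1 := by ring
      rw [h7, Finset.sum_range_succ, Finset.sum_range_succ]
      split_ifs at h5 h6 ⊢ <;> omega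
  -- sum over the other colours
  have hB : ∀ t, 2 * nblocks c m + t ≤ c →
      3 * nblocks c m + t ≤ (∑ z ∈ Finset.range (2 * nblocks c m + t), g z) +
        (if f.val < 2 * nblocks c m + t then 1 else 0) := by
    intro t
    induction t with
    | zero => intro _; simpa using hA _ le_rfl
    | succ t ih =>
      intro ht
      have h5 := ih (by omega)
      have h6 := hsingle (2 * nblocks c m + t) (by omega)
      rw [← Nat.add_assoc (2 * nblocks c m) t 1, Finset.sum_range_succ]
      split_ifs at h5 h6 ⊢ <;> omega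
  have h5 := hB (c - 2 * nblocks c m) (by omega)
  have h6 : 2 * nblocks c m + (c - 2 * nblocks c m) = c := by omega
  rw [h6, hsum] at h5
  have h7 : f.val < c := f.isLt
  rw [if_pos h7] at h5
  omega

theorem le_minMoves_blockColor (h1 : m + 1 ≤ c) (h2 : c ≤ 2 * (m + 1)) :
    m + c / 2 ≤ minMoves (grid 2 (m + 1)) (blockColor c m hc) := by
  have : Nonempty (Fin c) := ⟨⟨0, hc⟩⟩
  refine le_minMoves ?_ ?_
  · intro d l hl
    have h3 := le_length hc h1 h2 d l hl
    unfold nblocks at h3
    omega
  · intro d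
    exact exists_play_of_grow _ (highway_all (blockColor c m hc) (r := 0) (r' := 1) (by decide)) d

end block

/-- The general upper bound for two rows. -/
theorem worstMoves_le (m c : ℕ) : worstMoves (grid 2 (m + 1)) c ≤ m + c / 2 := by
  refine csSup_le' ?_
  rintro t ⟨ω, _, rfl⟩
  exact minMoves_le ω

/-- The exact value for two rows and `n ≤ c ≤ 2n` colours. -/
theorem worstMoves_eq {m c : ℕ} (h1 : m + 1 ≤ c) (h2 : c ≤ 2 * (m + 1)) :
    worstMoves (grid 2 (m + 1)) c = m + c / 2 := by
  refine le_antisymm (worstMoves_le m c) ?_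
  have hc : 0 < c := by omega
  have hbdd : BddAbove {t | ∃ ω : Fin 2 × Fin (m + 1) → Fin c, Function.Surjective ω ∧
      t = minMoves (grid 2 (m + 1)) ω} := by
    refine ⟨m + c / 2, ?_⟩
    rintro t ⟨ω, _, rfl⟩
    exact minMoves_le ω
  exact (le_minMoves_blockColor hc h1 h2).trans
    (le_csSup hbdd ⟨_, blockColor_surjective hc h1 h2, rfl⟩)

end Pool.Agent.Lib.FloodIt
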