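import Pool.Agent.Lib.FloodIt.Basic

/-!
# Two rows: the highway strategy

For every colouring of the `2 × n` grid with `c` colours, `n - 1 + ⌊c/2⌋` moves suffice.
-/

namespace Pool.Agent.Lib.FloodIt

theorem grid_adj {k n : ℕ} {a b : Fin k × Fin n} :
    (grid k n).Adj a b ↔
      ((a.1.val + 1 = b.1.val ∨ b.1.val + 1 = a.1.val) ∧ a.2 = b.2) ∨
      ((a.2.val + 1 = b.2.val ∨ b.2.val + 1 = a.2.val) ∧ a.1 = b.1) := by
  rw [grid, SimpleGraph.boxProd_adj, SimpleGraph.pathGraph_adj, SimpleGraph.pathGraph_adj]

section highway

variable {c m : ℕ} (ω : Fin 2 × Fin (m + 1) → Fin c)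

/-- The colours left over after flooding row `r` from left to right: colours of a cell of row
`r'` that do not occur in row `r` from its column on. -/
def leftover (r r' : Fin 2) : Finset (Fin c) :=
  Finset.univ.filter fun x => ∃ i : Fin (m + 1), ω (r', i) = x ∧ ∀ j, i ≤ j → ω (r, j) ≠ x

theorem leftover_disjoint (r r' : Fin 2) : Disjoint (leftover ω r r') (leftover ω r' r) := by
  rw [Finset.disjoint_left]
  intro x h1 h2
  simp only [leftover, Finset.mem_filter, Finset.mem_univ, true_and] at h1 h2
  obtain ⟨i, hi, hi'⟩ := h1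
  obtain ⟨j, hj, hj'⟩ := h2
  rcases le_total i j with h | h
  · exact hi' j h hj
  · exact hj' i h hi

/-- The column with index `j` (or the last one). -/
def col (m j : ℕ) : Fin (m + 1) := ⟨min j m, by omega⟩

theorem col_val (j : Fin (m + 1)) : col m j.val = j := by
  apply Fin.ext; simp [col]; omega

/-- The colours of row `r` in columns `1, …, i`. -/
def rowList (r : Fin 2) (i : ℕ) : List (Fin c) :=
  (List.range i).map fun j => ω (r, col m (j + 1))

theorem rowList_succ (r : Fin 2) (i : ℕ) :
    rowList ω r (i + 1) = rowList ω r i ++ [ω (r, col m (i + 1))] := by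
  simp [rowList, List.range_succ]

theorem row_adj (r : Fin 2) {i : ℕ} (hi : i + 1 ≤ m) :
    (grid 2 (m + 1)).Adj (r, col m i) (r, col m (i + 1)) := by
  rw [grid_adj]
  right
  refine ⟨Or.inl ?_, rfl⟩
  simp only [col]
  omega

theorem rung_adj {r r' : Fin 2} (h : r ≠ r') (j : Fin (m + 1)) :
    (grid 2 (m + 1)).Adj (r, j) (r', j) := by
  rw [grid_adj]
  left
  refine ⟨?_, rfl⟩
  have h1 : r.val ≠ r'.val := fun h' => h (Fin.ext h')
  have h2 := r.isLt
  have h3 := r'.isLt
  show r.val + 1 = r'.val ∨ r'.val + 1 = r.val
  omega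

/-- After `i` moves along the highway the region reaches column `i` and has its colour. -/
theorem highway_step (r : Fin 2) (i : ℕ) (hi : i ≤ m) :
    (mono (grid 2 (m + 1)) (grow (grid 2 (m + 1)) (r, col m 0) ω (rowList ω r i))).Reachable
        (r, col m 0) (r, col m i) ∧
      grow (grid 2 (m + 1)) (r, col m 0) ω (rowList ω r i) (r, col m 0) = ω (r, col m i) := by
  induction i with
  | zero => exact ⟨SimpleGraph.Reachable.refl _, rfl⟩
  | succ i ih =>
    obtain ⟨h1, h2⟩ := ih (by omega)
    rw [rowList_succ, grow_append]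
    set ωi := grow (grid 2 (m + 1)) (r, col m 0) ω (rowList ω r i) with hωi
    simp only [grow_cons, grow_nil]
    refine ⟨?_, move_of_reachable (SimpleGraph.Reachable.refl _)⟩
    by_cases h3 : (mono (grid 2 (m + 1)) ωi).Reachable (r, col m 0) (r, col m (i + 1))
    · exact reachable_move h3
    · refine reachable_move_of_adj h1 (row_adj r hi) ?_
      exact grow_of_not (rowList ω r i) h3

theorem rowList_split (r : Fin 2) {i : ℕ} (hi : i ≤ m) :
    rowList ω r m =
      rowList ω r i ++ (List.range (m - i)).map (fun t => ω (r, col m (i + t + 1))) := by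
  have h : List.range m = List.range i ++ (List.range (m - i)).map (i + ·) := by
    rw [← List.range_add]
    congr 1
    omega
  simp only [rowList, h, List.map_append, List.map_map]
  rfl

/-- Highway and clean-up: every cell ends in the region. -/
theorem highway_all {r r' : Fin 2} (h : r ≠ r') (w : Fin 2 × Fin (m + 1)) :
    (mono (grid 2 (m + 1)) (grow (grid 2 (m + 1)) (r, col m 0) ω
      (rowList ω r m ++ (leftover ω r r').toList))).Reachable (r, col m 0) w := by
  obtain ⟨q, j⟩ := w
  have hj : j.val ≤ m := by have := j.isLt; omega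
  obtain ⟨h1, h2⟩ := highway_step ω r j.val hj
  rw [col_val] at h1 h2
  rw [rowList_split ω r hj, List.append_assoc, grow_append]
  set ωj := grow (grid 2 (m + 1)) (r, col m 0) ω (rowList ω r j.val) with hωj
  by_cases hq : q = r
  · rw [hq]
    exact reachable_grow _ h1
  · have hq' : q = r' := by
      apply Fin.ext
      have h3 : q.val ≠ r.val := fun h' => hq (Fin.ext h')
      have h4 : r.val ≠ r'.val := fun h' => h (Fin.ext h')
      have h5 := q.isLt
      have h6 := r.isLt
      have h7 := r'.isLt
      omega
    subst hq'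
    by_cases h3 : (mono (grid 2 (m + 1)) ωj).Reachable (r, col m 0) (q, j)
    · exact reachable_grow _ h3
    · have h4 : ωj (q, j) = ω (q, j) := grow_of_not (rowList ω r j.val) h3
      refine reachable_grow_of_adj' _ h1 (rung_adj h j) ?_
      rw [h4, h2]
      by_cases h5 : ∃ i, j ≤ i ∧ ω (r, i) = ω (q, j)
      · obtain ⟨i, hi, hi'⟩ := h5
        rcases eq_or_lt_of_le hi with h6 | h6
        · left; rw [h6] at hi' ⊢; exact hi'.symm
        · right
          rw [List.mem_append]
          left
          rw [List.mem_map]
          have hlt : j.val < i.val := h6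
          have hi2 := i.isLt
          refine ⟨i.val - j.val - 1, List.mem_range.2 (by omega), ?_⟩
          have h7 : j.val + (i.val - j.val - 1) + 1 = i.val := by omega
          rw [h7, col_val, hi']
      · right
        rw [List.mem_append]
        right
        rw [Finset.mem_toList]
        simp only [leftover, Finset.mem_filter, Finset.mem_univ, true_and]
        refine ⟨j, rfl, fun i hi hne => h5 ⟨i, hi, hne⟩⟩

theorem minMoves_le_leftover {r r' : Fin 2} (h : r ≠ r') :
    minMoves (grid 2 (m + 1)) ω ≤ m + (leftover ω r r').card := by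
  have h1 := minMoves_le_of_grow (G := grid 2 (m + 1)) (v := (r, col m 0)) (ω := ω)
    (rowList ω r m ++ (leftover ω r r').toList) (highway_all ω h)
  simpa [rowList] using h1

/-- Every colouring of the `2 × (m+1)` grid needs at most `m + ⌊c/2⌋` moves. -/
theorem minMoves_le : minMoves (grid 2 (m + 1)) ω ≤ m + c / 2 := by
  have h1 := minMoves_le_leftover ω (r := 0) (r' := 1) (by decide)
  have h2 := minMoves_le_leftover ω (r := 1) (r' := 0) (by decide)
  have h3 : (leftover ω 0 1).card + (leftover ω 1 0).card ≤ c := by
    rw [← Finset.card_union_of_disjoint (leftover_disjoint ω 0 1)]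
    simpa using Finset.card_le_univ (leftover ω 0 1 ∪ leftover ω 1 0)
  omega

end highway

end Pool.Agent.Lib.FloodIt
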